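import Pool.Agent.WT59.One
import Pool.Agent.WT59.Dep

/-!
CLAIM 1 of notes 2777 and 2812 of MP_e6151a_ag for one matroid: the elements of `X` missed by the good bases of one class inside `X` are
dependent modulo the largest tight set of `X`; and THEOREM I of note 2812.

* `Bl r E f Q b`: `b` is a good basis in `Q`;
* `claim1`;
* `thI`: if `b₁` is a good basis without tight sets except `∅` and `E` then all good bases are in the class of `b₁`.
-/

set_option autoImplicit false

namespace Pool.Agent.WG59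

open Finset Pool.Agent.DT3 Pool.Agent.CF98 Pool.Agent.WT59

variable {α : Type*} [DecidableEq α] {r : Finset α → ℕ} {E X Z G b b₁ : Finset α} {f : ℕ}
  {Q : Finset α → Prop}

/-- The good bases in `Q`. -/
def Bl (r : Finset α → ℕ) (E : Finset α) (f : ℕ) (Q : Finset α → Prop) (b : Finset α) : Prop :=
  Gd r E f b ∧ Q b

theorem gd_ok (hE : Env r E f) (hb : Gd r E f b) : Ok r r E b := by
  intro X hX
  have h1 := sg_nonneg hE.rk hb.2.2 X hX
  unfold sg at h1
  omega

theorem ti_sg (b X : Finset α) : Ti r r b X ↔ sg r b X = 0 := by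
  unfold Ti sg
  omega

/-- CLAIM 1. -/
theorem claim1 (hE : Env r E f) (hQ : ∀ A A', Stp r E f A A' → Q A → Q A') (hX : X ⊆ E)
    (hXc : f + 1 ≤ X.card) (hb : ∃ b, Bl r E f Q b ∧ b ⊆ X) :
    r (FF r r E X ∪ US (Bl r E f Q) X) < r (FF r r E X) + (US (Bl r E f Q) X).card := by
  classical
  have hr := hE.rk
  refine dep37 (𝒦 := Bl r E f Q) (n := f) hr hr ?_ ?_ (X.card - (f + 1)) X hX (by omega) hb
  · intro b h
    exact ⟨h.1.1, h.1.2.1.1, gd_ok hE h.1⟩
  · rintro Z hZ hZc ⟨b, hb, hbZ⟩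
    obtain ⟨x, hx⟩ := card_eq_one.1 (by
      rw [card_sdiff_of_subset hbZ, hZc, hb.1.2.1.1]
      omega : (Z \ b).card = 1)
    have hxZ : x ∈ Z ∧ x ∉ b := by
      have h : x ∈ Z \ b := by
        rw [hx]
        exact mem_singleton_self x
      exact mem_sdiff.1 h
    have hZb : ∀ z ∈ Z, z ∉ b → z = x := by
      intro z hz hzb
      have h : z ∈ Z \ b := mem_sdiff.2 ⟨hz, hzb⟩
      rw [hx] at h
      exact mem_singleton.1 h
    have hZok : Ok r r E Z := ok_sub (gd_ok hE hb.1) hbZ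
    set G := FF r r E Z with hGd
    have hGE : G ⊆ E := FF_sub
    have hGt : Ti r r Z G := FF_ti hr hr hZok
    have hxG : x ∉ G := ti_disj (gd_ok hE hb.1) hbZ hGE hGt x hxZ.1 hxZ.2
    have hsame : ∀ Y : Finset α, x ∉ Y → Y \ b = Y \ Z := by
      intro Y hY
      ext z
      rw [mem_sdiff, mem_sdiff]
      constructor
      · rintro ⟨h1, h2⟩
        exact ⟨h1, fun h3 => hY (hZb z h3 h2 ▸ h1)⟩
      · rintro ⟨h1, h2⟩
        exact ⟨h1, fun h3 => h2 (hbZ h3)⟩
    have hTG : TG r E b x G := by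
      refine ⟨hGE, ?_, hxG, ?_⟩
      · rw [← ti_sg]
        unfold Ti at hGt ⊢
        rw [hsame G hxG]
        exact hGt
      · intro Y hY h0 hxY
        refine FF_max hY ?_
        rw [← ti_sg] at h0
        unfold Ti at h0 ⊢
        rw [← hsame Y hxY]
        exact h0
    have hxE : x ∈ E \ b := mem_sdiff.2 ⟨hZ hxZ.1, hxZ.2⟩
    let K : Finset α := b.filter fun y => y ∉ G ∧ r (insert x (b.erase y)) = f ∧
      (Q b ↔ Q (insert x (b.erase y)))
    have hK : ∀ y, y ∈ K ↔ y ∈ b ∧ y ∉ G ∧ r (insert x (b.erase y)) = f ∧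
        (Q b ↔ Q (insert x (b.erase y))) := fun y => mem_filter
    have h1 := tst hE hQ hb.1 hxE hTG hK
    have hU : insert x K ⊆ US (Bl r E f Q) Z := by
      intro y hy
      rw [mem_insert] at hy
      rcases hy with rfl | hy
      · exact mem_filter.2 ⟨hxZ.1, b, hb, hbZ, hxZ.2⟩
      · obtain ⟨k1, k2, k3, k4⟩ := (hK y).1 hy
        refine mem_filter.2 ⟨hbZ k1, insert x (b.erase y), ⟨tok_gd hE hb.1 hxE hTG k1 k2 k3, k4.1 hb.2⟩, ?_, ?_⟩
        · exact insert_subset hxZ.1 ((erase_subset y b).trans hbZ)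
        · rw [mem_insert, mem_erase]
          rintro (h | h)
          · exact hxZ.2 (h ▸ k1)
          · exact h.1 rfl
    have hxK : x ∉ K := fun h => hxZ.2 ((hK x).1 h).1
    have h2 := rk_le_union_card hr (insert x (G ∪ K)) (US (Bl r E f Q) Z \ insert x K)
    have e1 : insert x (G ∪ K) ∪ US (Bl r E f Q) Z \ insert x K = G ∪ US (Bl r E f Q) Z := by
      ext z
      have h3 := @hU z
      simp only [mem_union, mem_insert, mem_sdiff] at h3 ⊢
      tauto
    rw [e1, h1] at h2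
    have h3 := rk_le_union_card hr G K
    have h4 := card_sdiff_of_subset hU
    have h5 := card_le_card hU
    rw [card_insert_of_notMem hxK] at h4 h5
    omega

/-- THEOREM I: a good basis without non-trivial tight sets decides the class of all good bases. -/
theorem thI (hE : Env r E f) (hQ : ∀ A A', Stp r E f A A' → Q A → Q A') (hb₁ : Gd r E f b₁)
    (ht : ∀ G ⊆ E, G.Nonempty → sg r b₁ G = 0 → G = E) (hb : Gd r E f b) (hq : Q b) : Q b₁ := by
  classical
  by_contra hn
  -- a basis in `Q` closest to `b₁`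
  have hne : (E.powerset.filter fun A => Bl r E f Q A).Nonempty :=
    ⟨b, mem_filter.2 ⟨mem_powerset.2 hb.1, hb, hq⟩⟩
  obtain ⟨a, ha, hmin⟩ := exists_min_image _ (fun A => (A \ b₁).card) hne
  rw [mem_filter, mem_powerset] at ha
  have hX : a ∪ b₁ ⊆ E := union_subset ha.1 hb₁.1
  have hpos : 0 < (a \ b₁).card := by
    rw [Nat.pos_iff_ne_zero]
    intro h0
    have h1 : a ⊆ b₁ := by
      rw [card_eq_zero, sdiff_eq_empty_iff_subset] at h0
      exact h0
    have h2 : a = b₁ := eq_of_subset_of_card_le h1 (by rw [hb₁.2.1.1, ha.2.1.2.1.1])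
    exact hn (h2 ▸ ha.2.2)
  have hXc : (a ∪ b₁).card = f + (a \ b₁).card := by
    rw [union_comm, ← union_sdiff_self_eq_union, card_union_of_disjoint disjoint_sdiff, hb₁.2.1.1]
  have h1 := claim1 hE hQ hX (by omega) ⟨a, ha.2, subset_union_left⟩
  -- the largest tight set is empty
  have hok : Ok r r E (a ∪ b₁) := ok_sub (gd_ok hE hb₁) subset_union_right
  have hF : FF r r E (a ∪ b₁) = ∅ := by
    by_contra hF
    have hFt := FF_ti hE.rk hE.rk hok
    have hFE : FF r r E (a ∪ b₁) ⊆ E := FF_sub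
    have h2 : sg r b₁ (FF r r E (a ∪ b₁)) = 0 := by
      have h3 := sg_nonneg hE.rk hb₁.2.2 _ hFE
      have h4 := card_le_card (sdiff_subset_sdiff (subset_refl (FF r r E (a ∪ b₁)))
        (subset_union_right : b₁ ⊆ a ∪ b₁))
      unfold Ti at hFt
      unfold sg at h3 ⊢
      omega
    have h3 := ht _ hFE (nonempty_iff_ne_empty.2 hF) h2
    have h4 : ∀ y ∈ a ∪ b₁, y ∉ b₁ → y ∉ FF r r E (a ∪ b₁) :=
      ti_disj (gd_ok hE hb₁) subset_union_right hFE hFt
    obtain ⟨y, hy⟩ := card_pos.1 hpos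
    have h5 := mem_sdiff.1 hy
    refine h4 y (mem_union_left _ h5.1) h5.2 ?_
    rw [h3]
    exact ha.1 h5.1
  rw [hF, empty_union, hE.rk.empty, zero_add] at h1
  -- some element of `a \ b₁` is missed
  have h2 : ¬ US (Bl r E f Q) (a ∪ b₁) ⊆ b₁ := by
    intro h3
    have h4 := ind_sub hE.rk (by rw [hb₁.2.1.1, hb₁.2.1.2] : r b₁ = b₁.card) h3
    omega
  obtain ⟨y, hy, hyb⟩ := not_subset.1 h2
  obtain ⟨hyX, A, hA, hAX, hyA⟩ := mem_filter.1 hy
  have h3 := hmin A (mem_filter.2 ⟨mem_powerset.2 hA.1.1, hA⟩)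
  have h4 : A \ b₁ ⊂ a \ b₁ := by
    rw [ssubset_iff_of_subset]
    · refine ⟨y, mem_sdiff.2 ⟨?_, hyb⟩, fun h => hyA (mem_sdiff.1 h).1⟩
      rcases mem_union.1 hyX with h | h
      · exact h
      · exact absurd h hyb
    · intro z hz
      rw [mem_sdiff] at hz ⊢
      refine ⟨?_, hz.2⟩
      rcases mem_union.1 (hAX hz.1) with h | h
      · exact h
      · exact absurd h hz.2
  have h5 := card_lt_card h4
  omega

end Pool.Agent.WG59
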