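import Pool.Agent.WG59.Lvl

/-!
The closed system at the end of the extremal choice (note 2777 (4) of MP_e6151a_ag, abstract form).

* `Clo r d E 𝒳 D 𝒵 U`: `𝒵` is closed under the moves, the new element is always in the new `D X`, and `U` is the union of the `D X`;
* `closed`: existence;
* `closed_g`: the nullities of `U` add up to more than `|U|`.
-/

set_option autoImplicit false

namespace Pool.Agent.WG59

open Finset Pool.Agent.DT3 Pool.Agent.CF98

variable {α : Type*} [DecidableEq α] {r d : Finset α → ℕ} {E S S' Q Q' A B D W X U : Finset α} {v y : α}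
  {𝒳 𝒴 𝒵 : Finset α → Prop} {Df F : Finset α → Finset α} {ρ : ℕ}

/-- A closed system. -/
structure Clo (r d : Finset α → ℕ) (E : Finset α) (𝒳 : Finset α → Prop) (D : Finset α → Finset α)
    (𝒵 : Finset α → Prop) (U : Finset α) : Prop where
  sub : ∀ X, 𝒵 X → 𝒳 X
  ne : ∃ X, 𝒵 X
  mv : ∀ X, 𝒵 X → ∀ v ∈ D X, ∀ y, Mv d E X v y → 𝒵 (mvd X v y) ∧ y ∈ D (mvd X v y)
  one : ∀ X, 𝒵 X → (D X).card = r (D X) + 1
  UE : U ⊆ E
  DU : ∀ X, 𝒵 X → D X ⊆ U
  UD : ∀ u ∈ U, ∃ X, 𝒵 X ∧ u ∈ D X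
  rU : ∀ X, 𝒵 X → r U = r (X ∩ U)
  dU : ∀ X, 𝒵 X → d U = ((E \ X) ∩ U).card
  cl : ∀ X, 𝒵 X → ∀ u ∈ U, d (insert u (E \ X)) = d (E \ X)

/-- The span of the part of the complement inside `U`. -/
theorem cl_part (hd : RankFn d) (hS : Sy r d E 𝒳 Df) (hX : 𝒳 X) (hv : v ∈ Df X)
    (hU : ∀ y, Mv d E X v y → y ∈ U) : d (insert v ((E \ X) ∩ U)) = d ((E \ X) ∩ U) := by
  have e1 : (E \ X) ∩ U = (E \ X) \ ((E \ X) \ U) := by
    rw [sdiff_sdiff_right_self]
    rfl
  rw [e1]
  refine cl_inter hd (hS.ind X hX) (hS.Dcl X hX v hv) sdiff_subset fun y hy => ?_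
  rcases Nat.lt_or_ge (d (insert v ((E \ X).erase y))) (d (E \ X)) with h | h
  · exact h
  · exfalso
    have hy' := mem_sdiff.1 hy
    have h1 := hd.mono _ _ (insert_subset_insert v (erase_subset y (E \ X)))
    rw [hS.Dcl X hX v hv] at h1
    exact hy'.2 (hU y ⟨hy'.1, le_antisymm h1 h⟩)

theorem ex_part (hd : RankFn d) (hS : Sy r d E 𝒳 Df) (hX : 𝒳 X) (hv : v ∈ Df X) (hy : Mv d E X v y)
    (hyU : y ∈ U) : d (insert v (((E \ X) ∩ U).erase y)) = d ((E \ X) ∩ U) := by
  have h1 := hS.Dsub X hX hv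
  have h3 : y ∈ (E \ X) ∩ U := mem_inter.2 ⟨hy.1, hyU⟩
  have h5 : d ((E \ X) ∩ U) = ((E \ X) ∩ U).card := ind_sub hd (hS.ind X hX) inter_subset_left
  have h6 : v ∉ (E \ X) ∩ U := fun h => (mem_sdiff.1 (mem_inter.1 h).1).2 h1
  have h7 : (insert v (((E \ X) ∩ U).erase y)).card = ((E \ X) ∩ U).card := by
    rw [card_insert_of_notMem (fun h => h6 (mem_of_mem_erase h)), card_erase_of_mem h3]
    have := card_pos.2 ⟨y, h3⟩
    omega
  rw [h5, ← h7]
  have hvX : v ∉ E \ X := fun h => (mem_sdiff.1 h).2 h1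
  have h9 : d (insert v ((E \ X).erase y)) = (insert v ((E \ X).erase y)).card := by
    rw [hy.2, hS.ind X hX, card_insert_of_notMem (fun h => hvX (mem_of_mem_erase h)),
      card_erase_of_mem hy.1]
    have := card_pos.2 ⟨y, hy.1⟩
    omega
  exact ind_sub hd h9 (insert_subset_insert v (erase_subset_erase y inter_subset_left))

/-- The nullity of a set in the span is at most one. -/
theorem nul_one (hd : RankFn d) (hS : Sy r d E 𝒳 Df) (hX : 𝒳 X) (hb : Bd r d E F 1 X)
    (hQ : Q ⊆ X ∩ F X) (hc : ∀ z ∈ Q, d (insert z ((E \ X) ∩ F X)) = d ((E \ X) ∩ F X)) :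
    Q.card ≤ r Q + 1 := by
  have h1 := hb Q hQ
  unfold exc at h1
  rw [rk_union_eq hd hc, ind_sub hd (hS.ind X hX) inter_subset_left] at h1
  push_cast at h1
  omega

/-- The new element is in the new `D X`. -/
theorem new_mem (hr : RankFn r) (hd : RankFn d) (hS : Sy r d E 𝒳 Df) (hL : Lv r d E 𝒳 Df 𝒴 F ρ)
    (hb : ∀ X, 𝒴 X → Bd r d E F 1 X) (hX : 𝒴 X) (hv : v ∈ Df X) (hy : Mv d E X v y) :
    y ∈ Df (mvd X v y) := by
  by_contra hn
  obtain ⟨hyF, hX', hFF⟩ := hL.mv X hX v hv y hy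
  have hs := hL.sub X hX
  have hs' := hL.sub _ hX'
  have hvX := hS.Dsub X hs hv
  have hD' := hS.Dsub _ hs'
  have hDX : Df (mvd X v y) ⊆ X.erase v := by
    intro z hz
    have h1 := hD' hz
    unfold mvd at h1
    rw [mem_insert] at h1
    rcases h1 with h1 | h1
    · exact absurd (h1 ▸ hz) hn
    · exact h1
  have hvn : v ∉ Df (mvd X v y) := fun h => (mem_erase.1 (hDX h)).1 rfl
  have hDF : Df (mvd X v y) ⊆ F X := by
    rw [← hFF]
    exact hL.Ds _ hX'
  have hQ : Df X ∪ Df (mvd X v y) ⊆ X ∩ F X :=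
    union_subset (subset_inter (hS.Dsub X hs) (hL.Ds X hX))
      (subset_inter (hDX.trans (erase_subset v X)) hDF)
  have hyS : y ∈ (E \ X) ∩ F X := mem_inter.2 ⟨hy.1, hyF⟩
  have hcl := hL.cl hd hS hX hv
  have hex := ex_part (U := F X) hd hS hs hv hy hyF
  have h1 := nul_one (Q := Df X ∪ Df (mvd X v y)) hd hS hs (hb X hX) hQ (by
    intro z hz
    rcases mem_union.1 hz with hz | hz
    · exact hL.cl hd hS hX hz
    · have h2 := hL.cl hd hS hX' hz
      rw [hFF, hL.cp hS hX hv hy] at h2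
      have h3 := exch_cl hd hyS hcl hex {z}
      rw [union_singleton, union_singleton, h2, hex] at h3
      exact h3.symm)
  have h2 := hS.Dco X hs v hv
  have h3 : r (insert v ((Df X).erase v)) = r ((Df X).erase v) := by rw [insert_erase hv, h2]
  have h4 : (Df X).erase v ⊆ (Df X ∪ Df (mvd X v y)).erase v := erase_subset_erase v subset_union_left
  have h5 := hr.mono_insert h3 h4
  rw [insert_erase (mem_union_left _ hv)] at h5
  have h6 : Df (mvd X v y) ⊆ (Df X ∪ Df (mvd X v y)).erase v := fun z hz =>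
    mem_erase.2 ⟨fun h => hvn (h ▸ hz), mem_union_right _ hz⟩
  have h7 : r ((Df X ∪ Df (mvd X v y)).erase v) < ((Df X ∪ Df (mvd X v y)).erase v).card := by
    rcases Nat.lt_or_ge (r ((Df X ∪ Df (mvd X v y)).erase v))
      ((Df X ∪ Df (mvd X v y)).erase v).card with h | h
    · exact h
    · exfalso
      have h8 := ind_sub hr (le_antisymm (hr.le_card _) h) h6
      have h9 := hS.Ddep _ hs'
      omega
  rw [card_erase_of_mem (mem_union_left _ hv)] at h7
  omega

/-- Existence of a closed system. -/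
theorem closed (hr : RankFn r) (hd : RankFn d) (hG : ∀ A ⊆ E, A.card ≤ r A + d A + 1)
    (hS : Sy r d E 𝒳 Df) (hne : ∃ X, 𝒳 X) : ∃ 𝒵 U, Clo r d E 𝒳 Df 𝒵 U := by
  classical
  obtain ⟨𝒴, F, ρ, hL, hb⟩ := Lv.last hr hd hG hS hne
  obtain ⟨X₀, hX₀⟩ := hL.ne
  let R : Finset α → Finset α → Prop := fun X X' => ∃ v ∈ Df X, ∃ y, Mv d E X v y ∧ X' = mvd X v y
  let 𝒵 : Finset α → Prop := fun X => Relation.ReflTransGen R X₀ X
  let U : Finset α := E.filter fun u => ∃ X, 𝒵 X ∧ u ∈ Df X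
  have hZY : ∀ X, 𝒵 X → 𝒴 X := by
    intro X h
    induction h with
    | refl => exact hX₀
    | tail _ h2 ih =>
      obtain ⟨v, hv, y, hy, rfl⟩ := h2
      exact (hL.mv _ ih v hv y hy).2.1
  have hZX : ∀ X, 𝒵 X → 𝒳 X := fun X h => hL.sub X (hZY X h)
  have hZmv : ∀ X, 𝒵 X → ∀ v ∈ Df X, ∀ y, Mv d E X v y → 𝒵 (mvd X v y) := fun X h v hv y hy =>
    Relation.ReflTransGen.tail h ⟨v, hv, y, hy, rfl⟩
  have hnew : ∀ X, 𝒵 X → ∀ v ∈ Df X, ∀ y, Mv d E X v y → y ∈ Df (mvd X v y) := fun X h v hv y hy =>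
    new_mem hr hd hS hL hb (hZY X h) hv hy
  have hDU : ∀ X, 𝒵 X → Df X ⊆ U := fun X h u hu =>
    mem_filter.2 ⟨hS.sub X (hZX X h) (hS.Dsub X (hZX X h) hu), X, h, hu⟩
  have hyU : ∀ X, 𝒵 X → ∀ v ∈ Df X, ∀ y, Mv d E X v y → y ∈ U := fun X h v hv y hy =>
    hDU _ (hZmv X h v hv y hy) (hnew X h v hv y hy)
  have hcl : ∀ X, 𝒵 X → ∀ v ∈ Df X, d (insert v ((E \ X) ∩ U)) = d ((E \ X) ∩ U) := fun X h v hv =>
    cl_part hd hS (hZX X h) hv (hyU X h v hv)
  -- the spans do not change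
  have hspan : ∀ X, 𝒵 X → (∀ Z, r (X ∩ U ∪ Z) = r (X₀ ∩ U ∪ Z)) ∧
      ∀ Z, d ((E \ X) ∩ U ∪ Z) = d ((E \ X₀) ∩ U ∪ Z) := by
    intro X h
    induction h with
    | refl => exact ⟨fun _ => rfl, fun _ => rfl⟩
    | @tail X X' h1 h2 ih =>
      obtain ⟨v, hv, y, hy, rfl⟩ := h2
      have hZ : 𝒵 X := h1
      have hs := hZX X hZ
      have hvX := hS.Dsub X hs hv
      have hvU := hDU X hZ hv
      have hyU' := hyU X hZ v hv y hy
      have hZ' := hZmv X hZ v hv y hy
      have hyD := hnew X hZ v hv y hy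
      have hyX : y ∉ X := (mem_sdiff.1 hy.1).2
      constructor
      · intro Z
        rw [← ih.1 Z]
        have e1 : mvd X v y ∩ U = insert y ((X ∩ U).erase v) := by
          unfold mvd
          ext z
          simp only [mem_inter, mem_insert, mem_erase]
          constructor
          · rintro ⟨h3 | h3, h4⟩
            · exact Or.inl h3
            · exact Or.inr ⟨h3.1, h3.2, h4⟩
          · rintro (h3 | h3)
            · exact ⟨Or.inl h3, h3 ▸ hyU'⟩
            · exact ⟨Or.inr ⟨h3.1, h3.2.1⟩, h3.2.2⟩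
        have h3 : r (insert v ((X ∩ U).erase v ∪ Z)) = r ((X ∩ U).erase v ∪ Z) := by
          have h4 := hS.Dco X hs v hv
          have h5 : r (insert v ((Df X).erase v)) = r ((Df X).erase v) := by rw [insert_erase hv, h4]
          exact hr.mono_insert h5
            ((erase_subset_erase v (subset_inter (hS.Dsub X hs) (hDU X hZ))).trans subset_union_left)
        have h4 : r (insert y ((X ∩ U).erase v ∪ Z)) = r ((X ∩ U).erase v ∪ Z) := by
          have h5 := hS.Dco _ (hZX _ hZ') y hyD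
          have h6 : r (insert y ((Df (mvd X v y)).erase y)) = r ((Df (mvd X v y)).erase y) := by
            rw [insert_erase hyD, h5]
          refine hr.mono_insert h6 (fun z hz => mem_union_left _ ?_)
          rw [mem_erase] at hz
          have h7 := hS.Dsub _ (hZX _ hZ') hz.2
          have h8 := hDU _ hZ' hz.2
          unfold mvd at h7
          rw [mem_insert, mem_erase] at h7
          rcases h7 with h7 | h7
          · exact absurd h7 hz.1
          · exact mem_erase.2 ⟨h7.1, mem_inter.2 ⟨h7.2, h8⟩⟩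
        rw [e1, insert_union, h4, ← h3, ← insert_union, insert_erase (mem_inter.2 ⟨hvX, hvU⟩)]
      · intro Z
        rw [← ih.2 Z]
        have e1 : (E \ mvd X v y) ∩ U = insert v (((E \ X) ∩ U).erase y) := by
          rw [sdiff_mvd hvX (hS.sub X hs hvX) hy.1]
          ext z
          simp only [mem_inter, mem_insert, mem_erase]
          constructor
          · rintro ⟨h3 | h3, h4⟩
            · exact Or.inl h3
            · exact Or.inr ⟨h3.1, h3.2, h4⟩
          · rintro (h3 | h3)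
            · exact ⟨Or.inl h3, h3 ▸ hvU⟩
            · exact ⟨Or.inr ⟨h3.1, h3.2.1⟩, h3.2.2⟩
        rw [e1]
        exact exch_cl hd (mem_inter.2 ⟨hy.1, hyU'⟩) (hcl X hZ v hv)
          (ex_part hd hS hs hv hy hyU') Z
  have hUD : ∀ u ∈ U, ∃ X, 𝒵 X ∧ u ∈ Df X := fun u hu => (mem_filter.1 hu).2
  have hUE : U ⊆ E := filter_subset _ _
  have hdcl : ∀ X, 𝒵 X → ∀ u ∈ U, d (insert u ((E \ X) ∩ U)) = d ((E \ X) ∩ U) := by
    intro X h u hu
    obtain ⟨X', h', hu'⟩ := hUD u hu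
    have h1 := hcl X' h' u hu'
    have h2 := (hspan X h).2
    have h3 := (hspan X' h').2
    rw [← union_singleton, h2, ← h3, union_singleton, h1, ← union_empty ((E \ X') ∩ U), h3, ← h2,
      union_empty]
  refine ⟨𝒵, U, hZX, ⟨X₀, Relation.ReflTransGen.refl⟩, fun X h v hv y hy =>
    ⟨hZmv X h v hv y hy, hnew X h v hv y hy⟩, ?_, hUE, hDU, hUD, ?_, ?_, ?_⟩
  · intro X h
    have h1 := nul_one (Q := Df X) hd hS (hZX X h) (hb X (hZY X h))
      (subset_inter (hS.Dsub X (hZX X h)) (hL.Ds X (hZY X h))) (fun z hz => hL.cl hd hS (hZY X h) hz)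
    have h2 := hS.Ddep X (hZX X h)
    omega
  · intro X h
    have h1 : r (X ∩ U ∪ U) = r (X ∩ U) := by
      refine rk_union_eq hr fun u hu => ?_
      obtain ⟨X', h', hu'⟩ := hUD u hu
      have h2 := (hspan X h).1
      have h3 := (hspan X' h').1
      have h4 : u ∈ X' ∩ U := mem_inter.2 ⟨hS.Dsub X' (hZX X' h') hu', hu⟩
      rw [← union_singleton, h2, ← h3, union_singleton, insert_eq_of_mem h4, ← union_empty (X' ∩ U), h3,
        ← h2, union_empty]
    rw [← h1]
    congr 1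
    rw [union_eq_right.2 inter_subset_right]
  · intro X h
    have h1 : d ((E \ X) ∩ U ∪ U) = d ((E \ X) ∩ U) := rk_union_eq hd (hdcl X h)
    rw [union_eq_right.2 inter_subset_right] at h1
    rw [h1]
    exact ind_sub hd (hS.ind X (hZX X h)) inter_subset_left
  · intro X h u hu
    exact hd.mono_insert (hdcl X h u hu) inter_subset_left

/-- The closed system violates the union condition, and `U` is in the span of the complement of `X`. -/
theorem closed_g (hr : RankFn r) (hS : Sy r d E 𝒳 Df) (hC : Clo r d E 𝒳 Df 𝒵 U) :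
    d U + r U + 1 ≤ U.card := by
  obtain ⟨X, hX⟩ := hC.ne
  have h1 := hC.rU X hX
  have h2 := hC.dU X hX
  have h3 : Df X ⊆ X ∩ U := subset_inter (hS.Dsub X (hC.sub X hX)) (hC.DU X hX)
  have h4 : r (X ∩ U) < (X ∩ U).card := by
    rcases Nat.lt_or_ge (r (X ∩ U)) (X ∩ U).card with h | h
    · exact h
    · exfalso
      have h8 := ind_sub hr (le_antisymm (hr.le_card _) h) h3
      have h9 := hS.Ddep X (hC.sub X hX)
      omega
  have h5 : U.card = ((E \ X) ∩ U).card + (X ∩ U).card := by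
    rw [← card_union_of_disjoint]
    · congr 1
      ext z
      simp only [mem_union, mem_inter, mem_sdiff]
      have := @hC.UE z
      tauto
    · rw [Finset.disjoint_left]
      intro z hz hz'
      exact (mem_sdiff.1 (mem_inter.1 hz).1).2 (mem_inter.1 hz').1
  omega

/-- If the union condition holds for the sets that do not span `d`, there is no system. -/
theorem no_system (hr : RankFn r) (hd : RankFn d) (hG : ∀ A ⊆ E, A.card ≤ r A + d A + 1)
    (hR : ∀ A ⊆ E, d A < d E → A.card ≤ r A + d A) (hS : Sy r d E 𝒳 Df)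
    (hlt : ∀ X, 𝒳 X → d (E \ X) < d E) : ¬ ∃ X, 𝒳 X := by
  intro hne
  obtain ⟨𝒵, U, hC⟩ := closed hr hd hG hS hne
  obtain ⟨X, hX⟩ := hC.ne
  have h1 := closed_g hr hS hC
  have h2 : d U ≤ d (E \ X) := by
    have h3 : d ((E \ X) ∪ U) = d (E \ X) := rk_union_eq hd (hC.cl X hX)
    rw [← h3]
    exact hd.mono _ _ subset_union_right
  have h3 := hlt X (hC.sub X hX)
  have h4 := hR U hC.UE (by omega)
  omega

end Pool.Agent.WG59
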