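import Pool.Agent.WG59.Zig

/-!
The zigzag on a basis `b`, and the reduction.

* `zig_ev`: an explicit solution with final scalar `χ b`;
* `a1`: if the sums of `χ` over the full transversals in a system of pairs that are transversal to a complete flag vanish,
  then `χ` is constant on the full transversals which are bases.
-/

set_option autoImplicit false

namespace Pool.Agent.WG59

open Finset Pool.Agent.DT3

variable {β ι : Type*} [DecidableEq β] [DecidableEq ι]

private theorem enum {β : Type*} [DecidableEq β] (b : Finset β) :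
    ∃ P : ℕ → Finset β, P 0 = ∅ ∧ P b.card = b ∧
      ∀ k < b.card, ∃ x ∈ b, x ∉ P k ∧ P (k + 1) = insert x (P k) := by
  induction b using Finset.induction_on with
  | empty => exact ⟨fun _ => ∅, rfl, rfl, fun k hk => absurd hk (by simp)⟩
  | insert x b hx ih =>
    obtain ⟨P, h1, h2, h3⟩ := ih
    rw [card_insert_of_notMem hx]
    refine ⟨fun k => if k ≤ b.card then P k else insert x b, ?_, ?_, ?_⟩
    · show (if 0 ≤ b.card then P 0 else insert x b) = ∅
      rw [if_pos (Nat.zero_le _), h1]
    · show (if b.card + 1 ≤ b.card then P (b.card + 1) else insert x b) = insert x b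
      rw [if_neg (by omega)]
    · intro k hk
      show ∃ y ∈ insert x b, y ∉ (if k ≤ b.card then P k else insert x b) ∧
        (if k + 1 ≤ b.card then P (k + 1) else insert x b) =
          insert y (if k ≤ b.card then P k else insert x b)
      rw [if_pos (show k ≤ b.card by omega)]
      by_cases hk' : k < b.card
      · obtain ⟨y, hy, hy', hP⟩ := h3 k hk'
        rw [if_pos (show k + 1 ≤ b.card by omega)]
        exact ⟨y, mem_insert_of_mem hy, hy', hP⟩
      · have : k = b.card := by omega
        subst this
        rw [if_neg (by omega), h2]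
        exact ⟨x, mem_insert_self _ _, hx, rfl⟩

theorem zig_ev {r : Finset β → ℕ} {E b : Finset β} {π : β → ι} (χ : Finset β → ZMod 2) (hr : RankFn r)
    (hl : ∀ e ∈ E, 0 < r {e}) (hE : 0 < r E) (hbE : b ⊆ E) (hbc : b.card = r E) (hbr : r b = r E) :
    ∃ ψ, Zig r E b π χ ψ ∧ sc r E ψ = χ b := by
  classical
  obtain ⟨P, hP0, hPm, hPs⟩ := enum b
  set m := r E with hm
  rw [hbc] at hPm hPs
  have hsub : ∀ k, k ≤ m → P k ⊆ b := by
    intro k
    induction k with
    | zero => intro _; rw [hP0]; exact empty_subset _
    | succ k ih =>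
      intro hk
      obtain ⟨x, hx, -, hP⟩ := hPs k (by omega)
      rw [hP]
      exact insert_subset hx (ih (by omega))
  have hcard : ∀ k, k ≤ m → (P k).card = k := by
    intro k
    induction k with
    | zero => intro _; rw [hP0]; rfl
    | succ k ih =>
      intro hk
      obtain ⟨x, hx, hx', hP⟩ := hPs k (by omega)
      rw [hP, card_insert_of_notMem hx', ih (by omega)]
  have hind : ∀ Q ⊆ b, r Q = Q.card := by
    intro Q hQ
    have h1 := hr.submod Q (b \ Q)
    rw [union_sdiff_of_subset hQ] at h1
    have h2 := hr.le_card (b \ Q)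
    have h3 := hr.le_card Q
    have h4 := card_sdiff_of_subset hQ
    have h5 := card_le_card hQ
    omega
  set F : ℕ → Finset β := fun k => clo r E (P k) with hF
  have hPE : ∀ k, k ≤ m → P k ⊆ E := fun k hk => (hsub k hk).trans hbE
  have hFf : ∀ k, k ≤ m → IsFlat r E (F k) := fun k hk => clo_flat hr (hPE k hk)
  have hFr : ∀ k, k ≤ m → r (F k) = k := by
    intro k hk
    show r (clo r E (P k)) = k
    rw [rank_clo hr (hPE k hk), hind _ (hsub k hk), hcard k hk]
  have hFb : ∀ k, k ≤ m → ∀ x ∈ b, x ∈ F k → x ∈ P k := by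
    intro k hk x hx hxF
    by_contra hxP
    have h1 : r (insert x (P k)) = (insert x (P k)).card := hind _ (insert_subset hx (hsub k hk))
    rw [card_insert_of_notMem hxP, hcard k hk] at h1
    have h2 : r (insert x (P k)) ≤ r (F k) := hr.mono _ _ (insert_subset hxF (subset_clo (hPE k hk)))
    rw [hFr k hk] at h2
    omega
  have hcov : ∀ k, k < m → Cov r E (F k) (F (k + 1)) := by
    intro k hk
    refine ⟨hFf k (by omega), hFf (k + 1) (by omega), ?_, ?_⟩
    · obtain ⟨x, hx, hx', hP⟩ := hPs k hk
      refine clo_sub_flat hr (hFf (k + 1) (by omega)) ?_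
      refine Subset.trans ?_ (subset_clo (hPE (k + 1) (by omega)))
      rw [hP]
      exact subset_insert _ _
    · rw [hFr (k + 1) (by omega), hFr k (by omega)]
  have hstep1 : ∀ k, k < m → (b ∩ (F (k + 1) \ F k)).card = 1 := by
    intro k hk
    obtain ⟨x, hx, hx', hP⟩ := hPs k hk
    have : b ∩ (F (k + 1) \ F k) = {x} := by
      ext z
      rw [mem_inter, mem_sdiff, mem_singleton]
      constructor
      · rintro ⟨h1, h2, h3⟩
        have h4 := hFb (k + 1) (by omega) z h1 h2
        rw [hP, mem_insert] at h4
        rcases h4 with h4 | h4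
        · exact h4
        · exact absurd (subset_clo (hPE k (by omega)) h4) h3
      · rintro rfl
        refine ⟨hx, subset_clo (hPE (k + 1) (by omega)) ?_, fun h => hx' (hFb k (by omega) z hx h)⟩
        rw [hP]
        exact mem_insert_self _ _
    rw [this, card_singleton]
  set ψ : Finset β → Finset β → List (Finset β) → ZMod 2 := fun X B c =>
    if ∃ k, k < m ∧ X = F k ∧ B = b \ P (k + 1) then χ b * tr r E b X c else 0 with hψ
  have hψ1 : ∀ k, k < m → ∀ c, ψ (F k) (b \ P (k + 1)) c = χ b * tr r E b (F k) c := fun k hk c =>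
    if_pos ⟨k, hk, rfl, rfl⟩
  have hψ2 : ∀ X B c, (¬ ∃ k, k < m ∧ X = F k ∧ B = b \ P (k + 1)) → ψ X B c = 0 := fun X B c h =>
    if_neg h
  have hk : ∀ k k', k ≤ m → k' ≤ m → F k = F k' → k = k' := by
    intro k k' h1 h2 h3
    rw [← hFr k h1, ← hFr k' h2, h3]
  have hFm : F m = E := by
    by_contra hne
    have h1 := flat_lt_E hr (hFf m le_rfl) hne
    rw [hFr m le_rfl] at h1
    omega
  refine ⟨ψ, ⟨fun X B => ?_, ?_⟩, ?_⟩
  · by_cases h : ∃ k, k < m ∧ X = F k ∧ B = b \ P (k + 1)
    · have e : ψ X B = fun c => χ b * tr r E b X c := by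
        funext c
        exact if_pos h
      rw [e]
      exact (rel_tr hr E b X).mul _
    · have e : ψ X B = fun _ => 0 := by
        funext c
        exact if_neg h
      rw [e]
      exact Rel.zero r E X
  · intro X hX hXE A hA c
    have hlt := flat_lt_E hr hX hXE
    have hAc := hA.2.1
    rw [← hm] at hAc hlt
    have hAb : A ⊆ b := hA.1.trans sdiff_subset
    have hAX : ∀ z ∈ A, z ∉ X := fun z hz => (mem_sdiff.1 (hA.1 hz)).2
    set k := r X with hkd
    by_cases hXk : X = F k
    · -- `A = b \ P k`
      have hAP : A = b \ P k := by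
        refine eq_of_subset_of_card_le (fun z hz => mem_sdiff.2 ⟨hAb hz, fun h => hAX z hz ?_⟩) ?_
        · rw [hXk]
          exact subset_clo (hPE k (by omega)) h
        · rw [card_sdiff_of_subset (hsub k (by omega)), hcard k (by omega), hbc]
          omega
      obtain ⟨x, hx, hx', hPx⟩ := hPs k (by omega)
      have hxA : x ∈ A := by
        rw [hAP]
        exact mem_sdiff.2 ⟨hx, hx'⟩
      have hAe : A.erase x = b \ P (k + 1) := by
        ext z
        rw [hAP, hPx, mem_erase, mem_sdiff, mem_sdiff, mem_insert]
        tauto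
      have e1 : ∑ a ∈ A, ψ X (A.erase a) c = χ b * tr r E b X c := by
        rw [sum_eq_single_of_mem x hxA, hAe, hXk, hψ1 k (by omega) c]
        intro a ha hax
        refine hψ2 _ _ _ ?_
        rintro ⟨k', h1, h2, h3⟩
        rw [hXk] at h2
        have h4 := hk k k' (by omega) (by omega) h2
        subst h4
        rw [← hAe] at h3
        have h5 : a ∈ A.erase x := mem_erase.2 ⟨hax, ha⟩
        rw [← h3] at h5
        exact notMem_erase a A h5
      rw [e1]
      unfold om
      by_cases h0 : k = 0
      · rw [if_pos (hkd.symm.trans h0)]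
        have : A = b := by
          rw [hAP, h0, hP0, sdiff_empty]
        rw [this]
      · rw [if_neg (by omega)]
        have hk1 : k - 1 + 1 = k := by omega
        have hcv : F (k - 1) ∈ below r E X := by
          rw [mem_below, hXk]
          have := hcov (k - 1) (by omega)
          rw [hk1] at this
          exact this
        rw [sum_eq_single_of_mem (F (k - 1)) hcv]
        · have h1 := hψ1 (k - 1) (by omega) (X :: c)
          rw [hk1, ← hAP] at h1
          rw [h1, tr_cons_pos (mem_below.1 hcv)]
          have h2 := hstep1 (k - 1) (by omega)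
          rw [hk1, ← hXk] at h2
          exact h2
        · intro F' hF' hne
          refine hψ2 _ _ _ ?_
          rintro ⟨k', h1, h2, h3⟩
          have h4 := cov_rank (mem_below.1 hF')
          rw [h2, hFr k' (by omega), ← hkd] at h4
          exact hne (by rw [h2]; congr 1; omega)
    · have e1 : ∑ a ∈ A, ψ X (A.erase a) c = 0 := by
        refine sum_eq_zero fun a _ => hψ2 _ _ _ ?_
        rintro ⟨k', h1, h2, -⟩
        apply hXk
        rw [h2]
        congr 1
        rw [hkd, h2, hFr k' (by omega)]
      rw [e1]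
      unfold om
      by_cases h0 : k = 0
      · exfalso
        have h1 : X = ∅ := rank_zero_flat hr hl hX.1 (hkd.symm.trans h0)
        have h2 : F k = ∅ := rank_zero_flat hr hl (hFf k (by omega)).1 (by
          rw [hFr k (by omega), h0])
        exact hXk (h1.trans h2.symm)
      · rw [if_neg (by omega)]
        symm
        refine sum_eq_zero fun F' hF' => ?_
        by_cases h : ∃ k', k' < m ∧ F' = F k' ∧ A = b \ P (k' + 1)
        · obtain ⟨k', h1, h2, h3⟩ := h
          have hcv := mem_below.1 hF'
          have h4 := cov_rank hcv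
          rw [h2, hFr k' (by omega), ← hkd] at h4
          rw [h2, h3, hψ1 k' h1, tr_cons_neg, mul_zero]
          intro h5
          obtain ⟨z, hz⟩ := card_eq_one.1 h5
          have hz' : z ∈ b ∩ (X \ F k') := by
            rw [hz]
            exact mem_singleton_self z
          rw [mem_inter, mem_sdiff] at hz'
          obtain ⟨x, hx, hx', hPx⟩ := hPs k' h1
          have hzx : z = x := by
            by_contra hne
            have h6 : z ∈ A := by
              rw [h3, mem_sdiff, hPx, mem_insert]
              refine ⟨hz'.1, ?_⟩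
              rintro (h7 | h7)
              · exact hne h7
              · exact hz'.2.2 (subset_clo (hPE k' (by omega)) h7)
            exact hAX z h6 hz'.2.1
          subst hzx
          -- `X = F k`
          have hzE := hbE hx
          obtain ⟨k1, k2⟩ := flat_cover hr (hFf k' (by omega)) (mem_sdiff.2 ⟨hzE, hz'.2.2⟩)
          rw [h2] at hcv
          have h6 := (k2 X hX hcv.2.2.1 hz'.2.1).2 hcv.2.2.2
          have hcv2 := hcov k' h1
          have h7 : z ∈ F (k' + 1) := subset_clo (hPE (k' + 1) (by omega)) (by
            rw [hPx]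
            exact mem_insert_self _ _)
          have h8 := (k2 (F (k' + 1)) hcv2.2.1 hcv2.2.2.1 h7).2 hcv2.2.2.2
          apply hXk
          rw [h6, ← h8, h4]
        · exact hψ2 _ _ _ h
  · unfold sc
    have hm1 : m - 1 + 1 = m := by omega
    have hcv : F (m - 1) ∈ below r E E := by
      rw [mem_below]
      have := hcov (m - 1) (by omega)
      rw [hm1, hFm] at this
      exact this
    have hPe : (∅ : Finset β) = b \ P (m - 1 + 1) := by
      rw [hm1, hPm, sdiff_self]
      rfl
    rw [sum_eq_single_of_mem (F (m - 1)) hcv]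
    · rw [hPe, hψ1 (m - 1) (by omega), tr_cons_pos (mem_below.1 hcv), tr, if_pos rfl, mul_one]
      have h2 := hstep1 (m - 1) (by omega)
      rw [hm1, hFm] at h2
      exact h2
    · intro H hH hne
      refine hψ2 _ _ _ ?_
      rintro ⟨k', h1, h2, -⟩
      have h4 := cov_rank (mem_below.1 hH)
      rw [h2, hFr k' (by omega), ← hm] at h4
      exact hne (by rw [h2]; congr 1; omega)

/-- The homological reduction. -/
theorem a1 {r : Finset β → ℕ} {E : Finset β} {π : β → ι} {χ : Finset β → ZMod 2} (hr : RankFn r)
    (hl : ∀ e ∈ E, 0 < r {e}) (hm : (E.image π).card = r E)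
    (hF : ∀ F, IsFlat r E F → F ≠ E → 0 < r F → r E - r F + 1 ≤ ((E \ F).image π).card)
    (hχ : ∀ Z ⊆ E, (∀ e ∈ E.image π, (Z.filter fun z => π z = e).card = 2) →
      ∀ c, ∑ A ∈ ful π (r E) Z, χ A * tr r E A ∅ c = 0)
    {b b' : Finset β} (hb : Fc π E (r E) b) (hbr : r b = r E) (hb' : Fc π E (r E) b')
    (hbr' : r b' = r E) : χ b = χ b' := by
  rcases Nat.eq_zero_or_pos (r E) with h0 | h0
  · have h1 : b = ∅ := card_eq_zero.1 (hb.2.1.trans h0)
    have h2 : b' = ∅ := card_eq_zero.1 (hb'.2.1.trans h0)
    rw [h1, h2]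
  · obtain ⟨ψ, hψ⟩ := zig_ex hr hl hm hF hχ
    have key : ∀ b, Fc π E (r E) b → r b = r E → sc r E ψ = χ b := by
      intro b hb hbr
      obtain ⟨ψ', h1, h2⟩ := zig_ev (π := π) χ hr hl h0 hb.1 hb.2.1 hbr
      rw [← h2]
      refine zig_uni hr h0 hb.2.2 (fun F hF hFE => ?_) (hψ.mono hb.1) h1
      rw [sdiff_nonempty]
      intro hs
      have h3 := hr.mono b F hs
      have h4 := flat_lt_E hr hF hFE
      omega
    rw [← key b hb hbr, key b' hb' hbr']

end Pool.Agent.WG59
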