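import Pool.Agent.DT3.HFlat

/-!
Cochains modulo 2 on a join of discrete sets (the partial transversals of the fibres of a map `π`), with values in a group of
exponent two.

* `Fc π U j A`: `A ⊆ U` has `j` elements and `π` is injective on `A`;
* `cb ψ A = ∑ a ∈ A, ψ (A.erase a)`: the coboundary;
* `ex_join`: exactness in the degrees below the number of the fibres that meet `U`;
* `ex_simplex`: exactness for a simplex;
* `ex_top`: a function on the full transversals is a coboundary if its sum over every system of pairs vanishes.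
-/

set_option autoImplicit false

namespace Pool.Agent.WG59

open Finset

variable {β ι V : Type*} [DecidableEq β] [DecidableEq ι] [AddCommGroup V]

/-- Partial transversals with `j` elements. -/
def Fc (π : β → ι) (U : Finset β) (j : ℕ) (A : Finset β) : Prop :=
  A ⊆ U ∧ A.card = j ∧ Set.InjOn π A

/-- The coboundary. -/
def cb (ψ : Finset β → V) (A : Finset β) : V := ∑ a ∈ A, ψ (A.erase a)

theorem cb_empty (ψ : Finset β → V) : cb ψ ∅ = 0 := by
  unfold cb
  rw [sum_empty]

theorem cb_insert (ψ : Finset β → V) {x : β} {B : Finset β} (hx : x ∉ B) :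
    cb ψ (insert x B) = ψ B + ∑ b ∈ B, ψ (insert x (B.erase b)) := by
  unfold cb
  rw [sum_insert hx, erase_insert hx]
  congr 1
  refine sum_congr rfl fun b hb => ?_
  rw [erase_insert_of_ne]
  rintro rfl
  exact hx hb

theorem eq_of_add (h2 : ∀ v : V, v + v = 0) {a b : V} (h : a + b = 0) : b = a := by
  have h1 := h2 a
  rw [← h] at h1
  exact (add_left_cancel h1).symm

theorem fc_erase {π : β → ι} {U : Finset β} {x : β} {B : Finset β} {j : ℕ} (hx : x ∉ B)
    (h : Fc π U (j + 1) (insert x B)) : Fc π (U.filter fun y => π y ≠ π x) j B := by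
  obtain ⟨h1, h2, h3⟩ := h
  refine ⟨fun y hy => ?_, ?_, h3.mono (by
    rw [coe_insert]
    exact Set.subset_insert _ _)⟩
  · rw [mem_filter]
    refine ⟨h1 (mem_insert_of_mem hy), fun h4 => hx ?_⟩
    have h5 := h3 (mem_coe.2 (mem_insert_of_mem hy)) (mem_coe.2 (mem_insert_self x B)) h4
    rw [← h5]
    exact hy
  · rw [card_insert_of_notMem hx] at h2
    omega

theorem fc_insert {π : β → ι} {U : Finset β} {x y : β} {B : Finset β} {j : ℕ} (hx : x ∈ U) (hxy : π x = π y)
    (h : Fc π (U.filter fun z => π z ≠ π y) j B) : x ∉ B ∧ Fc π U (j + 1) (insert x B) := by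
  obtain ⟨h1, h2, h3⟩ := h
  have h4 : ∀ z ∈ B, π z ≠ π x := fun z hz => by
    rw [hxy]
    exact (mem_filter.1 (h1 hz)).2
  have h5 : x ∉ B := fun h => h4 x h rfl
  refine ⟨h5, insert_subset hx (h1.trans (filter_subset _ _)), ?_, ?_⟩
  · rw [card_insert_of_notMem h5, h2]
  · rw [coe_insert, Set.injOn_insert (by simpa using h5)]
    refine ⟨h3, ?_⟩
    rintro ⟨z, hz, hz'⟩
    exact h4 z (mem_coe.1 hz) hz'

/-- Gluing of local primitives. -/
theorem glue (h2 : ∀ v : V, v + v = 0) (π : β → ι) {U : Finset β} {x₀ : β} {j : ℕ}
    {ω : Finset β → V} {ψx : β → Finset β → V}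
    (hψ : ∀ x ∈ U, π x = π x₀ → ∀ B, Fc π (U.filter fun z => π z ≠ π x₀) j B →
      cb (ψx x) B = ω (insert x B) + ω (insert x₀ B))
    (hc : ∀ A, Fc π (U.filter fun z => π z ≠ π x₀) (j + 1) A → cb ω (insert x₀ A) = 0) (hx₀ : x₀ ∈ U) :
    ∃ ψ : Finset β → V, ∀ A, Fc π U (j + 1) A → cb ψ A = ω A := by
  classical
  set ψ : Finset β → V := fun A => if ∃ x ∈ A, π x = π x₀ then
    ∑ x ∈ A.filter (fun x => π x = π x₀), ψx x (A.erase x) else ω (insert x₀ A) with hψd
  have hno : ∀ A : Finset β, (∀ x ∈ A, π x ≠ π x₀) → ψ A = ω (insert x₀ A) := by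
    intro A hA
    rw [hψd]
    refine if_neg ?_
    rintro ⟨x, hx, hx'⟩
    exact hA x hx hx'
  have hyes : ∀ (x : β) (B : Finset β), π x = π x₀ → (∀ z ∈ B, π z ≠ π x₀) →
      ψ (insert x B) = ψx x B := by
    intro x B hx hB
    have h5 : x ∉ B := fun h => hB x h hx
    have h1 : (insert x B).filter (fun z => π z = π x₀) = {x} := by
      ext z
      rw [mem_filter, mem_insert, mem_singleton]
      constructor
      · rintro ⟨h3 | h3, h4⟩
        · exact h3
        · exact absurd h4 (hB z h3)
      · rintro rfl
        exact ⟨Or.inl rfl, hx⟩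
    show (if ∃ y ∈ insert x B, π y = π x₀ then
      ∑ y ∈ (insert x B).filter (fun y => π y = π x₀), ψx y ((insert x B).erase y)
      else ω (insert x₀ (insert x B))) = _
    rw [if_pos ⟨x, mem_insert_self x B, hx⟩, h1, sum_singleton, erase_insert h5]
  refine ⟨ψ, fun A hA => ?_⟩
  by_cases hex : ∃ x ∈ A, π x = π x₀
  · obtain ⟨x, hx, hxx⟩ := hex
    have e1 : A = insert x (A.erase x) := (insert_erase hx).symm
    set B := A.erase x with hB
    have hxB : x ∉ B := notMem_erase x A
    rw [e1] at hA ⊢
    have hFB := fc_erase hxB hA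
    rw [hxx] at hFB
    have hBn : ∀ z ∈ B, π z ≠ π x₀ := fun z hz => (mem_filter.1 (hFB.1 hz)).2
    have hxU : x ∈ U := hA.1 (mem_insert_self x B)
    rw [cb_insert ψ hxB, hno B hBn]
    have e2 : ∑ b ∈ B, ψ (insert x (B.erase b)) = cb (ψx x) B := by
      unfold cb
      exact sum_congr rfl fun b _ => hyes x (B.erase b) hxx fun z hz => hBn z (mem_of_mem_erase hz)
    rw [e2, hψ x hxU hxx B hFB, ← add_assoc, add_comm (ω (insert x₀ B)) (ω (insert x B)), add_assoc,
      h2, add_zero]
  · push Not at hex
    have hFA : Fc π (U.filter fun z => π z ≠ π x₀) (j + 1) A :=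
      ⟨fun z hz => mem_filter.2 ⟨hA.1 hz, hex z hz⟩, hA.2.1, hA.2.2⟩
    have hx₀A : x₀ ∉ A := fun h => hex x₀ h rfl
    have h3 := hc A hFA
    rw [cb_insert ω hx₀A] at h3
    have h4 := eq_of_add h2 h3
    rw [← h4]
    unfold cb
    exact sum_congr rfl fun a _ => hno (A.erase a) fun z hz => hex z (mem_of_mem_erase hz)

theorem ex_join (h2 : ∀ v : V, v + v = 0) (π : β → ι) (j : ℕ) : ∀ (U : Finset β) (ω : Finset β → V),
    j + 1 ≤ (U.image π).card → (∀ A, Fc π U (j + 1) A → cb ω A = 0) →
    ∃ ψ : Finset β → V, ∀ A, Fc π U j A → cb ψ A = ω A := by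
  induction j with
  | zero =>
    intro U ω hU hω
    have h1 : (U.image π).Nonempty := card_pos.1 (by omega)
    obtain ⟨x, hx⟩ := image_nonempty.1 h1
    have h3 := hω {x} ⟨singleton_subset_iff.2 hx, card_singleton x, by simp⟩
    refine ⟨fun _ => 0, fun A hA => ?_⟩
    have h4 : A = ∅ := card_eq_zero.1 hA.2.1
    subst h4
    rw [cb_empty]
    unfold cb at h3
    rw [sum_singleton, erase_singleton] at h3
    exact h3.symm
  | succ j ih =>
    intro U ω hU hω
    have h1 : (U.image π).Nonempty := card_pos.1 (by omega)
    obtain ⟨x₀, hx₀⟩ := image_nonempty.1 h1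
    set U' := U.filter fun z => π z ≠ π x₀ with hU'
    have h3 : (U.image π).erase (π x₀) ⊆ U'.image π := by
      intro e he
      rw [mem_erase, mem_image] at he
      obtain ⟨he1, z, hz, hze⟩ := he
      refine mem_image.2 ⟨z, mem_filter.2 ⟨hz, ?_⟩, hze⟩
      rw [hze]
      exact he1
    have h4 := card_le_card h3
    rw [card_erase_of_mem (mem_image_of_mem π hx₀)] at h4
    have h5 : ∀ x ∈ U, π x = π x₀ → ∀ C, Fc π U' (j + 1) C →
        ∑ c ∈ C, ω (insert x (C.erase c)) = ω C := by
      intro x hx hxx C hC
      obtain ⟨h6, h7⟩ := fc_insert hx hxx hC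
      have h8 := hω _ h7
      rw [cb_insert ω h6] at h8
      exact eq_of_add h2 h8
    have h6 : ∀ x, ∃ ψ : Finset β → V, x ∈ U → π x = π x₀ → ∀ B, Fc π U' j B →
        cb ψ B = ω (insert x B) + ω (insert x₀ B) := by
      intro x
      by_cases hx : x ∈ U ∧ π x = π x₀
      · obtain ⟨ψ, hψ⟩ := ih U' (fun B => ω (insert x B) + ω (insert x₀ B)) (by omega) (by
          intro C hC
          have e1 : cb (fun B => ω (insert x B) + ω (insert x₀ B)) C =
              ∑ c ∈ C, ω (insert x (C.erase c)) + ∑ c ∈ C, ω (insert x₀ (C.erase c)) := by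
            unfold cb
            exact sum_add_distrib
          rw [e1, h5 x hx.1 hx.2 C hC, h5 x₀ hx₀ rfl C hC]
          exact h2 _)
        exact ⟨ψ, fun _ _ => hψ⟩
      · exact ⟨fun _ => 0, fun h7 h8 => absurd ⟨h7, h8⟩ hx⟩
    choose ψx hψx using h6
    exact glue h2 π (fun x hx hxx B hB => hψx x hx hxx B hB)
      (fun A hA => hω _ (fc_insert hx₀ rfl hA).2) hx₀

theorem ex_simplex (h2 : ∀ v : V, v + v = 0) {U : Finset β} (hU : U.Nonempty) (j : ℕ)
    (ω : Finset β → V) (hω : ∀ A ⊆ U, A.card = j + 1 → cb ω A = 0) :
    ∃ ψ : Finset β → V, ∀ A ⊆ U, A.card = j → cb ψ A = ω A := by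
  classical
  obtain ⟨x₀, hx₀⟩ := hU
  refine ⟨fun B => if x₀ ∈ B then 0 else ω (insert x₀ B), fun A hA hj => ?_⟩
  by_cases hx : x₀ ∈ A
  · have e1 : A = insert x₀ (A.erase x₀) := (insert_erase hx).symm
    set B := A.erase x₀
    have hxB : x₀ ∉ B := notMem_erase x₀ A
    rw [e1, cb_insert _ hxB, if_neg hxB, sum_eq_zero, add_zero]
    intro b _
    exact if_pos (mem_insert_self _ _)
  · have h1 := hω (insert x₀ A) (insert_subset hx₀ hA) (by rw [card_insert_of_notMem hx, hj])
    rw [cb_insert ω hx] at h1
    have h3 := eq_of_add h2 h1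
    rw [← h3]
    unfold cb
    exact sum_congr rfl fun a _ => if_neg fun h => hx (mem_of_mem_erase h)

open Classical in
/-- The full transversals in `Z`. -/
noncomputable def ful (π : β → ι) (n : ℕ) (Z : Finset β) : Finset (Finset β) :=
  Z.powerset.filter fun A => A.card = n ∧ Set.InjOn π A

theorem mem_ful {π : β → ι} {n : ℕ} {Z A : Finset β} : A ∈ ful π n Z ↔ Fc π Z n A := by
  unfold ful Fc
  rw [mem_filter, mem_powerset]

theorem ex_top (h2 : ∀ v : V, v + v = 0) (π : β → ι) (n : ℕ) : ∀ (U : Finset β) (u : Finset β → V),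
    (U.image π).card = n → (∀ Z ⊆ U, (∀ e ∈ U.image π, (Z.filter fun z => π z = e).card = 2) →
      ∑ A ∈ ful π n Z, u A = 0) →
    ∃ ψ : Finset β → V, ∀ A, Fc π U n A → cb ψ A = u A := by
  induction n with
  | zero =>
    intro U u hU hu
    have h1 : U = ∅ := image_eq_empty.1 (card_eq_zero.1 hU)
    subst h1
    have h3 := hu ∅ (subset_refl _) (by simp)
    have h4 : ful π 0 (∅ : Finset β) = {∅} := by
      ext A
      rw [mem_ful, mem_singleton]
      constructor
      · intro h
        exact card_eq_zero.1 h.2.1
      · rintro rfl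
        exact ⟨subset_refl _, card_empty, by simp⟩
    rw [h4, sum_singleton] at h3
    refine ⟨fun _ => 0, fun A hA => ?_⟩
    have h5 : A = ∅ := card_eq_zero.1 hA.2.1
    subst h5
    rw [cb_empty, h3]
  | succ n ih =>
    intro U u hU hu
    have h1 : (U.image π).Nonempty := card_pos.1 (by omega)
    obtain ⟨x₀, hx₀⟩ := image_nonempty.1 h1
    set U' := U.filter fun z => π z ≠ π x₀ with hU'
    have himg : U'.image π = (U.image π).erase (π x₀) := by
      ext e
      rw [mem_erase, mem_image, mem_image]
      constructor
      · rintro ⟨z, hz, rfl⟩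
        rw [mem_filter] at hz
        exact ⟨hz.2, z, hz.1, rfl⟩
      · rintro ⟨he, z, hz, rfl⟩
        exact ⟨z, mem_filter.2 ⟨hz, he⟩, rfl⟩
    have hcard : (U'.image π).card = n := by
      rw [himg, card_erase_of_mem (mem_image_of_mem π hx₀), hU]
      omega
    have h6 : ∀ x, ∃ ψ : Finset β → V, x ∈ U → π x = π x₀ → ∀ B, Fc π U' n B →
        cb ψ B = u (insert x B) + u (insert x₀ B) := by
      intro x
      by_cases hx : (x ∈ U ∧ π x = π x₀) ∧ x ≠ x₀
      · obtain ⟨ψ, hψ⟩ := ih U' (fun B => u (insert x B) + u (insert x₀ B)) hcard (by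
          intro Z hZ hZ2
          have hZn : ∀ z ∈ Z, π z ≠ π x₀ := fun z hz => (mem_filter.1 (hZ hz)).2
          have hxZ : x ∉ Z := fun h => hZn x h hx.1.2
          have hx₀Z : x₀ ∉ Z := fun h => hZn x₀ h rfl
          have h7 := hu (insert x (insert x₀ Z)) (insert_subset hx.1.1 (insert_subset hx₀
            (hZ.trans (filter_subset _ _)))) (by
              intro e he
              by_cases hee : e = π x₀
              · have e1 : (insert x (insert x₀ Z)).filter (fun z => π z = e) = {x, x₀} := by
                  ext z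
                  rw [mem_filter, mem_insert, mem_insert, mem_insert, mem_singleton]
                  constructor
                  · rintro ⟨h8 | h8 | h8, h9⟩
                    · exact Or.inl h8
                    · exact Or.inr h8
                    · exact absurd (h9.trans hee) (hZn z h8)
                  · rintro (rfl | rfl)
                    · exact ⟨Or.inl rfl, hx.1.2.trans hee.symm⟩
                    · exact ⟨Or.inr (Or.inl rfl), hee.symm⟩
                rw [e1, card_pair hx.2]
              · have e1 : (insert x (insert x₀ Z)).filter (fun z => π z = e) =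
                    Z.filter (fun z => π z = e) := by
                  ext z
                  rw [mem_filter, mem_insert, mem_insert, mem_filter]
                  constructor
                  · rintro ⟨h8 | h8 | h8, h9⟩
                    · exact absurd (h9.symm.trans (h8 ▸ hx.1.2)) hee
                    · exact absurd (h9.symm.trans (h8 ▸ rfl)) hee
                    · exact ⟨h8, h9⟩
                  · rintro ⟨h8, h9⟩
                    exact ⟨Or.inr (Or.inr h8), h9⟩
                rw [e1]
                exact hZ2 e (by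
                  rw [himg]
                  exact mem_erase.2 ⟨hee, he⟩))
          have hZU : Z ⊆ U := hZ.trans (filter_subset _ _)
          have hfz : ∀ (B : Finset β) (k : ℕ), Fc π Z k B → Fc π (U.filter fun z => π z ≠ π x₀) k B :=
            fun B k hB => ⟨hB.1.trans hZ, hB.2.1, hB.2.2⟩
          have e2 : ful π (n + 1) (insert x (insert x₀ Z)) =
              (ful π n Z).image (fun B => insert x B) ∪ (ful π n Z).image (fun B => insert x₀ B) := by
            ext A
            rw [mem_ful, mem_union, mem_image, mem_image]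
            constructor
            · intro hA
              have hAi : A.image π = U.image π := by
                refine eq_of_subset_of_card_le (image_subset_image (hA.1.trans (insert_subset hx.1.1
                  (insert_subset hx₀ hZU)))) ?_
                rw [card_image_of_injOn hA.2.2, hA.2.1, hU]
              have h8 : π x₀ ∈ A.image π := by
                rw [hAi]
                exact mem_image_of_mem π hx₀
              obtain ⟨y, hy, hyx⟩ := mem_image.1 h8
              have h9 : y = x ∨ y = x₀ := by
                rcases mem_insert.1 (hA.1 hy) with h10 | h10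
                · exact Or.inl h10
                · rcases mem_insert.1 h10 with h11 | h11
                  · exact Or.inr h11
                  · exact absurd hyx (hZn y h11)
              have h10 : Fc π Z n (A.erase y) := by
                refine ⟨fun z hz => ?_, ?_, hA.2.2.mono (by
                  rw [coe_erase]
                  exact Set.diff_subset)⟩
                · obtain ⟨hz1, hz2⟩ := mem_erase.1 hz
                  have h11 : π z ≠ π x₀ := by
                    intro h12
                    exact hz1 (hA.2.2 (mem_coe.2 hz2) (mem_coe.2 hy) (h12.trans hyx.symm))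
                  rcases mem_insert.1 (hA.1 hz2) with h12 | h12
                  · exact absurd (h12 ▸ hx.1.2) h11
                  · rcases mem_insert.1 h12 with h13 | h13
                    · exact absurd (h13 ▸ rfl) h11
                    · exact h13
                · rw [card_erase_of_mem hy, hA.2.1]
                  omega
              rcases h9 with rfl | rfl
              · exact Or.inl ⟨A.erase y, mem_ful.2 h10, insert_erase hy⟩
              · exact Or.inr ⟨A.erase y, mem_ful.2 h10, insert_erase hy⟩
            · rintro (⟨B, hB, rfl⟩ | ⟨B, hB, rfl⟩)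
              · have h8 := fc_insert hx.1.1 hx.1.2 (hfz B n (mem_ful.1 hB))
                exact ⟨insert_subset (mem_insert_self _ _) ((mem_ful.1 hB).1.trans
                  ((subset_insert _ _).trans (subset_insert _ _))), h8.2.2⟩
              · have h8 := fc_insert hx₀ rfl (hfz B n (mem_ful.1 hB))
                exact ⟨insert_subset (mem_insert_of_mem (mem_insert_self _ _))
                  ((mem_ful.1 hB).1.trans ((subset_insert _ _).trans (subset_insert _ _))), h8.2.2⟩
          have hinj : ∀ y, (∀ B ∈ ful π n Z, y ∉ B) → Set.InjOn (fun B : Finset β => insert y B)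
              (ful π n Z : Set (Finset β)) := by
            intro y hy B hB B' hB' hBB
            have h8 := congrArg (fun C : Finset β => C.erase y) hBB
            simp only [erase_insert (hy B hB), erase_insert (hy B' hB')] at h8
            exact h8
          have hd : Disjoint ((ful π n Z).image (fun B => insert x B))
              ((ful π n Z).image (fun B => insert x₀ B)) := by
            rw [Finset.disjoint_left]
            rintro A hA hA'
            obtain ⟨B, hB, rfl⟩ := mem_image.1 hA
            obtain ⟨B', hB', hBB⟩ := mem_image.1 hA'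
            have h8 : x ∈ insert x₀ B' := by
              rw [hBB]
              exact mem_insert_self _ _
            rcases mem_insert.1 h8 with h9 | h9
            · exact hx.2 h9
            · exact hxZ ((mem_ful.1 hB').1 h9)
          rw [e2, sum_union hd, sum_image (hinj x fun B hB h => hxZ ((mem_ful.1 hB).1 h)),
            sum_image (hinj x₀ fun B hB h => hx₀Z ((mem_ful.1 hB).1 h)), ← sum_add_distrib] at h7
          exact h7)
        exact ⟨ψ, fun _ _ => hψ⟩
      · by_cases hxx : x = x₀
        · refine ⟨fun _ => 0, fun _ _ B _ => ?_⟩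
          rw [hxx, h2]
          unfold cb
          exact sum_const_zero
        · refine ⟨fun _ => 0, fun h7 h8 => absurd ⟨⟨h7, h8⟩, hxx⟩ hx⟩
    choose ψx hψx using h6
    refine glue h2 π (fun x hx hxx B hB => hψx x hx hxx B hB) (fun A hA => ?_) hx₀
    exfalso
    have h7 := card_le_card (image_subset_image (f := π) hA.1)
    rw [card_image_of_injOn hA.2.2, hA.2.1, hcard] at h7
    omega

end Pool.Agent.WG59
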