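import Pool.Agent.CF98.Rk0
import Pool.Agent.DT3.HFlat

/-!
The excess function of a pair of rank functions and the levels of note 2777 of MP_e6151a_ag (abstract form).

* `exc r d S Q = |Q| - r Q - d (S ∪ Q) + |S|`, supermodular in `Q`;
* `Mv d E X v y`, `mvd X v y`: the moves `X ↦ X - v + y`;
* `Sy`: a family of sets `X` closed under the moves, with dependent sets `D X ⊆ X` without coloops;
* `Lv`: a level.
-/

set_option autoImplicit false

namespace Pool.Agent.WG59

open Finset Pool.Agent.DT3 Pool.Agent.CF98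

variable {α : Type*} [DecidableEq α] {r d : Finset α → ℕ} {E S S' Q Q' A B D W X : Finset α} {v y : α}

/-- The excess of `Q` over `S`. -/
def exc (r d : Finset α → ℕ) (S Q : Finset α) : ℤ := (Q.card : ℤ) - r Q - d (S ∪ Q) + S.card

theorem exc_super (hr : RankFn r) (hd : RankFn d) (S A B : Finset α) :
    exc r d S A + exc r d S B ≤ exc r d S (A ∪ B) + exc r d S (A ∩ B) := by
  unfold exc
  have h1 := hr.submod A B
  have h2 := hd.submod (S ∪ A) (S ∪ B)
  have e1 : (S ∪ A) ∪ (S ∪ B) = S ∪ (A ∪ B) := by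
    ext z
    simp only [mem_union]
    tauto
  have e2 : (S ∪ A) ∩ (S ∪ B) = S ∪ (A ∩ B) := by
    ext z
    simp only [mem_union, mem_inter]
    tauto
  rw [e1, e2] at h2
  have h3 := card_union_add_card_inter A B
  omega

theorem exc_erase (hd : RankFn d) (hy : y ∈ Q) :
    exc r d S Q + r Q ≤ exc r d S (Q.erase y) + 1 + r (Q.erase y) := by
  unfold exc
  have h1 := hd.mono (S ∪ Q.erase y) (S ∪ Q) (union_subset_union (subset_refl S) (erase_subset y Q))
  have h2 := card_erase_of_mem hy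
  have h3 := card_pos.2 ⟨y, hy⟩
  omega

theorem exc_le_erase (hr : RankFn r) (hd : RankFn d) (hy : y ∈ Q) :
    exc r d S Q ≤ exc r d S (Q.erase y) + 1 := by
  have h1 := exc_erase (r := r) (S := S) hd hy
  have h2 := hr.mono _ _ (erase_subset y Q)
  omega

theorem exc_mono_cl (hd : RankFn d) (hQ : Q ⊆ Q') (h : r Q' = r Q) : exc r d S Q ≤ exc r d S Q' := by
  unfold exc
  have h1 := rk_le_union_card hd (S ∪ Q) (Q' \ Q)
  have e1 : S ∪ Q ∪ Q' \ Q = S ∪ Q' := by rw [union_assoc, union_sdiff_of_subset hQ]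
  rw [e1] at h1
  have h2 := card_sdiff_of_subset hQ
  have h3 := card_le_card hQ
  omega

theorem exc_up (hr : RankFn r) (hd : RankFn d) (hD : ∀ v ∈ D, d (insert v S) = d S) (hv : v ∈ D)
    (hvQ : v ∉ Q) (hc : r (D.erase v) = r D) : exc r d S Q + 1 ≤ exc r d S (Q ∪ D) := by
  unfold exc
  have h1 : d (S ∪ (Q ∪ D)) = d (S ∪ Q) := by
    rw [← union_assoc]
    exact rk_union_eq hd fun x hx => hd.mono_insert (hD x hx) subset_union_left
  have h2 : r (Q ∪ D) ≤ r Q + ((D \ Q).card - 1) := by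
    have h3 := hr.submod (Q ∪ D.erase v) D
    have e1 : Q ∪ D.erase v ∪ D = Q ∪ D := by
      ext z
      simp only [mem_union, mem_erase]
      tauto
    rw [e1] at h3
    have h4 : r D ≤ r ((Q ∪ D.erase v) ∩ D) := by
      rw [← hc]
      exact hr.mono _ _ (subset_inter subset_union_right (erase_subset v D))
    have h5 := rk_le_union_card hr Q ((D \ Q).erase v)
    have e2 : Q ∪ (D \ Q).erase v = Q ∪ D.erase v := by
      ext z
      simp only [mem_union, mem_erase, mem_sdiff]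
      tauto
    rw [e2, card_erase_of_mem (mem_sdiff.2 ⟨hv, hvQ⟩)] at h5
    omega
  have h3 : 0 < (D \ Q).card := card_pos.2 ⟨v, mem_sdiff.2 ⟨hv, hvQ⟩⟩
  have h4 : (Q ∪ D).card = Q.card + (D \ Q).card := by
    rw [← union_sdiff_self_eq_union, card_union_of_disjoint disjoint_sdiff]
  rw [h1, h4]
  omega

/-- An element in the span of the independent set `S` and of all `S - y`, `y ∈ W`, is in the span of `S \ W`. -/
theorem cl_inter (hd : RankFn d) (hS : d S = S.card) (hv : d (insert v S) = d S) (hW : W ⊆ S)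
    (h : ∀ y ∈ W, d (insert v (S.erase y)) < d S) : d (insert v (S \ W)) = d (S \ W) := by
  induction W using Finset.induction_on with
  | empty =>
    rw [sdiff_empty]
    exact hv
  | insert y W hy ih =>
    have hyS : y ∈ S := hW (mem_insert_self y W)
    have h1 := ih ((subset_insert y W).trans hW) (fun z hz => h z (mem_insert_of_mem hz))
    have h2 := h y (mem_insert_self y W)
    have h3 := hd.submod (insert v (S \ W)) (insert v (S.erase y))
    have e1 : insert v (S \ W) ∪ insert v (S.erase y) = insert v S := by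
      ext z
      simp only [mem_union, mem_insert, mem_sdiff, mem_erase]
      constructor
      · rintro ((h | h) | (h | h))
        · exact Or.inl h
        · exact Or.inr h.1
        · exact Or.inl h
        · exact Or.inr h.2
      · rintro (h | h)
        · exact Or.inl (Or.inl h)
        · by_cases hz : z = y
          · subst hz
            exact Or.inl (Or.inr ⟨hyS, hy⟩)
          · exact Or.inr (Or.inr ⟨hz, h⟩)
    have e2 : insert v (S \ W) ∩ insert v (S.erase y) = insert v (S \ insert y W) := by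
      ext z
      simp only [mem_inter, mem_insert, mem_sdiff, mem_erase]
      tauto
    rw [e1, e2, h1, hv] at h3
    have h4 : d (S \ W) = (S \ W).card := ind_sub hd hS sdiff_subset
    have h5 : d (S \ insert y W) = (S \ insert y W).card := ind_sub hd hS sdiff_subset
    have h6 : (S \ insert y W).card + 1 = (S \ W).card := by
      have e3 : S \ insert y W = (S \ W).erase y := by
        ext z
        simp only [mem_insert, mem_sdiff, mem_erase]
        tauto
      rw [e3, card_erase_of_mem (mem_sdiff.2 ⟨hyS, hy⟩)]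
      have := card_pos.2 ⟨y, mem_sdiff.2 ⟨hyS, hy⟩⟩
      omega
    have h7 := hd.mono _ _ (subset_insert v (S \ insert y W))
    omega

/-- An exchange in the span does not change the span. -/
theorem exch_cl (hd : RankFn d) (hy : y ∈ S) (h1 : d (insert v S) = d S)
    (h2 : d (insert v (S.erase y)) = d S) (Q : Finset α) :
    d (insert v (S.erase y) ∪ Q) = d (S ∪ Q) := by
  have e1 : insert y (insert v (S.erase y)) = insert v S := by
    rw [insert_comm, insert_erase hy]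
  have h3 : d (insert y (insert v (S.erase y))) = d (insert v (S.erase y)) := by rw [e1, h1, h2]
  have h4 := hd.mono_insert h3 (subset_union_left (s₂ := Q))
  have h5 := hd.mono_insert h1 (subset_union_left (s₂ := Q))
  rw [← h4, ← h5]
  congr 1
  rw [← insert_union, e1, ← insert_union]

/-- A move. -/
def Mv (d : Finset α → ℕ) (E X : Finset α) (v y : α) : Prop :=
  y ∈ E \ X ∧ d (insert v ((E \ X).erase y)) = d (E \ X)

/-- The result of a move. -/
def mvd (X : Finset α) (v y : α) : Finset α := insert y (X.erase v)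

theorem sdiff_mvd (hv : v ∈ X) (hvE : v ∈ E) (hy : y ∈ E \ X) :
    E \ mvd X v y = insert v ((E \ X).erase y) := by
  unfold mvd
  ext z
  simp only [mem_insert, mem_sdiff, mem_erase]
  by_cases hz : z = v
  · subst hz
    have h1 : z ≠ y := by
      rintro rfl
      exact (mem_sdiff.1 hy).2 hv
    tauto
  · tauto

/-- A family closed under the moves. -/
structure Sy (r d : Finset α → ℕ) (E : Finset α) (𝒳 : Finset α → Prop) (D : Finset α → Finset α) :
    Prop where
  sub : ∀ X, 𝒳 X → X ⊆ E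
  ind : ∀ X, 𝒳 X → d (E \ X) = (E \ X).card
  spn : ∀ X, 𝒳 X → r X = r E
  Dsub : ∀ X, 𝒳 X → D X ⊆ X
  Ddep : ∀ X, 𝒳 X → r (D X) < (D X).card
  Dco : ∀ X, 𝒳 X → ∀ v ∈ D X, r ((D X).erase v) = r (D X)
  Dcl : ∀ X, 𝒳 X → ∀ v ∈ D X, d (insert v (E \ X)) = d (E \ X)
  mv : ∀ X, 𝒳 X → ∀ v ∈ D X, ∀ y, Mv d E X v y → 𝒳 (mvd X v y)

/-- A level. -/
structure Lv (r d : Finset α → ℕ) (E : Finset α) (𝒳 : Finset α → Prop) (D : Finset α → Finset α)
    (𝒴 : Finset α → Prop) (F : Finset α → Finset α) (ρ : ℕ) : Prop where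
  sub : ∀ X, 𝒴 X → 𝒳 X
  ne : ∃ X, 𝒴 X
  flat : ∀ X, 𝒴 X → IsFlat r E (F X)
  rk : ∀ X, 𝒴 X → r (F X) = ρ
  sp : ∀ X, 𝒴 X → r (X ∩ F X) = r (F X)
  Ds : ∀ X, 𝒴 X → D X ⊆ F X
  mv : ∀ X, 𝒴 X → ∀ v ∈ D X, ∀ y, Mv d E X v y → y ∈ F X ∧ 𝒴 (mvd X v y) ∧ F (mvd X v y) = F X

variable {𝒳 𝒴 : Finset α → Prop} {Df F : Finset α → Finset α} {ρ : ℕ} {m : ℤ}

theorem Lv.base (hr : RankFn r) (hS : Sy r d E 𝒳 Df) (hne : ∃ X, 𝒳 X) :
    Lv r d E 𝒳 Df 𝒳 (fun _ => E) (r E) where
  sub := fun _ h => h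
  ne := hne
  flat := fun _ _ => ⟨subset_refl E, fun e he => absurd (mem_sdiff.1 he).1 (mem_sdiff.1 he).2⟩
  rk := fun _ _ => rfl
  sp := fun X h => by rw [inter_eq_left.2 (hS.sub X h), hS.spn X h]
  Ds := fun X h => (hS.Dsub X h).trans (hS.sub X h)
  mv := fun X h v hv y hy => ⟨(mem_sdiff.1 hy.1).1, hS.mv X h v hv y hy, rfl⟩

/-- `D X` is in the span of the part of the complement inside `F X`. -/
theorem Lv.cl (hd : RankFn d) (hS : Sy r d E 𝒳 Df) (hL : Lv r d E 𝒳 Df 𝒴 F ρ) (hX : 𝒴 X)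
    (hv : v ∈ Df X) : d (insert v ((E \ X) ∩ F X)) = d ((E \ X) ∩ F X) := by
  have hX' := hL.sub X hX
  have e1 : (E \ X) ∩ F X = (E \ X) \ ((E \ X) \ F X) := by
    rw [sdiff_sdiff_right_self]
    rfl
  rw [e1]
  refine cl_inter hd (hS.ind X hX') (hS.Dcl X hX' v hv) sdiff_subset fun y hy => ?_
  rcases Nat.lt_or_ge (d (insert v ((E \ X).erase y))) (d (E \ X)) with h | h
  · exact h
  · exfalso
    have hy' := mem_sdiff.1 hy
    have h1 := hd.mono _ _ (insert_subset_insert v (erase_subset y (E \ X)))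
    rw [hS.Dcl X hX' v hv] at h1
    exact hy'.2 (hL.mv X hX v hv y ⟨hy'.1, le_antisymm h1 h⟩).1

/-- The complement of the moved set inside `F`. -/
theorem Lv.cp (hS : Sy r d E 𝒳 Df) (hL : Lv r d E 𝒳 Df 𝒴 F ρ) (hX : 𝒴 X)
    (hv : v ∈ Df X) (hy : Mv d E X v y) :
    (E \ mvd X v y) ∩ F X = insert v (((E \ X) ∩ F X).erase y) := by
  have hX' := hL.sub X hX
  have h1 := hS.Dsub X hX' hv
  rw [sdiff_mvd h1 (hS.sub X hX' h1) hy.1]
  have h2 := hL.Ds X hX hv
  ext z
  simp only [mem_inter, mem_insert, mem_erase]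
  constructor
  · rintro ⟨h3 | h3, h4⟩
    · exact Or.inl h3
    · exact Or.inr ⟨h3.1, h3.2, h4⟩
  · rintro (h3 | h3)
    · exact ⟨Or.inl h3, h3 ▸ h2⟩
    · exact ⟨Or.inr ⟨h3.1, h3.2.1⟩, h3.2.2⟩

theorem Lv.ex_eq (hd : RankFn d) (hS : Sy r d E 𝒳 Df) (hL : Lv r d E 𝒳 Df 𝒴 F ρ) (hX : 𝒴 X)
    (hv : v ∈ Df X) (hy : Mv d E X v y) (Q : Finset α) :
    exc r d ((E \ mvd X v y) ∩ F X) Q = exc r d ((E \ X) ∩ F X) Q := by
  have hX' := hL.sub X hX
  have h1 := hS.Dsub X hX' hv
  rw [hL.cp hS hX hv hy]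
  have h2 := (hL.mv X hX v hv y hy).1
  have h3 : y ∈ (E \ X) ∩ F X := mem_inter.2 ⟨hy.1, h2⟩
  have h4 := hL.cl hd hS hX hv
  have h5 : d ((E \ X) ∩ F X) = ((E \ X) ∩ F X).card := ind_sub hd (hS.ind X hX') inter_subset_left
  have h6 : v ∉ (E \ X) ∩ F X := fun h => (mem_sdiff.1 (mem_inter.1 h).1).2 h1
  have h7 : (insert v (((E \ X) ∩ F X).erase y)).card = ((E \ X) ∩ F X).card := by
    rw [card_insert_of_notMem (fun h => h6 (mem_of_mem_erase h)), card_erase_of_mem h3]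
    have := card_pos.2 ⟨y, h3⟩
    omega
  have h8 : d (insert v (((E \ X) ∩ F X).erase y)) = d ((E \ X) ∩ F X) := by
    rw [h5, ← h7]
    have hvX : v ∉ E \ X := fun h => (mem_sdiff.1 h).2 h1
    have h9 : d (insert v ((E \ X).erase y)) = (insert v ((E \ X).erase y)).card := by
      rw [hy.2, hS.ind X hX', card_insert_of_notMem (fun h => hvX (mem_of_mem_erase h)),
        card_erase_of_mem hy.1]
      have := card_pos.2 ⟨y, hy.1⟩
      omega
    exact ind_sub hd h9 (insert_subset_insert v (erase_subset_erase y inter_subset_left))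
  unfold exc
  rw [exch_cl hd h3 h4 h8 Q, h7]

/-- Sets which miss an element of `D X` have smaller excess. -/
theorem Lv.low (hr : RankFn r) (hd : RankFn d) (hS : Sy r d E 𝒳 Df) (hL : Lv r d E 𝒳 Df 𝒴 F ρ)
    (hX : 𝒴 X) (hm : ∀ Q ⊆ X ∩ F X, exc r d ((E \ X) ∩ F X) Q ≤ m) (hv : v ∈ Df X)
    (hQ : Q ⊆ X ∩ F X) (hvQ : v ∉ Q) : exc r d ((E \ X) ∩ F X) Q + 1 ≤ m := by
  have hX' := hL.sub X hX
  have h1 := exc_up hr hd (fun u hu => hL.cl hd hS hX hu) hv hvQ (hS.Dco X hX' v hv)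
  have h2 := hm (Q ∪ Df X) (union_subset hQ (subset_inter (hS.Dsub X hX') (hL.Ds X hX)))
  omega

theorem Lv.keep (hr : RankFn r) (hd : RankFn d) (hS : Sy r d E 𝒳 Df) (hL : Lv r d E 𝒳 Df 𝒴 F ρ)
    (hX : 𝒴 X) (hm : ∀ Q ⊆ X ∩ F X, exc r d ((E \ X) ∩ F X) Q ≤ m) (hv : v ∈ Df X)
    (hy : Mv d E X v y) : ∀ Q ⊆ mvd X v y ∩ F (mvd X v y),
      exc r d ((E \ mvd X v y) ∩ F (mvd X v y)) Q ≤ m := by
  obtain ⟨h1, h2, h3⟩ := hL.mv X hX v hv y hy
  rw [h3]
  intro Q hQ
  rw [hL.ex_eq hd hS hX hv hy Q]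
  have hyX : y ∉ X := (mem_sdiff.1 hy.1).2
  have h4 : Q.erase y ⊆ X ∩ F X := by
    intro z hz
    rw [mem_erase] at hz
    have h5 := mem_inter.1 (hQ hz.2)
    unfold mvd at h5
    rw [mem_insert, mem_erase] at h5
    rcases h5.1 with h6 | h6
    · exact absurd h6 hz.1
    · exact mem_inter.2 ⟨h6.2, h5.2⟩
  have h5 : v ∉ Q.erase y := by
    intro h
    rw [mem_erase] at h
    have h6 := (mem_inter.1 (hQ h.2)).1
    unfold mvd at h6
    rw [mem_insert, mem_erase] at h6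
    rcases h6 with h7 | h7
    · exact h.1 h7
    · exact h7.1 rfl
  have h6 := hL.low hr hd hS hX hm hv h4 h5
  by_cases h7 : y ∈ Q
  · have h8 := exc_le_erase (S := (E \ X) ∩ F X) hr hd h7
    omega
  · rw [erase_eq_of_notMem h7] at h6
    omega

theorem Lv.top (hG : ∀ A ⊆ E, A.card ≤ r A + d A + 1)
    (hL : Lv r d E 𝒳 Df 𝒴 F ρ) (hX : 𝒴 X) :
    exc r d ((E \ X) ∩ F X) (X ∩ F X) ≤ 1 := by
  have h1 := hG (F X) (hL.flat X hX).1
  have e1 : (E \ X) ∩ F X ∪ X ∩ F X = F X := by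
    ext z
    simp only [mem_union, mem_inter, mem_sdiff]
    have := @(hL.flat X hX).1 z
    tauto
  have e2 : Disjoint ((E \ X) ∩ F X) (X ∩ F X) := by
    rw [Finset.disjoint_left]
    intro z hz hz'
    exact (mem_sdiff.1 (mem_inter.1 hz).1).2 (mem_inter.1 hz').1
  have e3 := card_union_of_disjoint e2
  rw [e1] at e3
  unfold exc
  rw [e1, hL.sp X hX]
  omega

end Pool.Agent.WG59
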