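import Pool.Agent.WG59.Ex

/-!
Flags of flats and the functions `tr` (transversality) on them.

* `Cov r E F X`: the flat `X` covers the flat `F`;
* `mid r E F B`: the flats strictly between `F` and `B` when `r B = r F + 2`;
* `below r E F`: the flats covered by `F`;
* `Rel r E F φ`: `φ` is a function on the chains above `F` which sums to zero over the choices of any inner member;
* `tr r E A F c = 1` iff `c` is a complete flag from `F` to `E` and `A` meets every step in one element;
* `rel_tr`.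
-/

set_option autoImplicit false

namespace Pool.Agent.WG59

open Finset Pool.Agent.DT3

variable {β : Type*} [DecidableEq β]

/-- Covering of flats. -/
def Cov (r : Finset β → ℕ) (E F X : Finset β) : Prop :=
  IsFlat r E F ∧ IsFlat r E X ∧ F ⊆ X ∧ r X = r F + 1

open Classical in
/-- The flats between `F` and `B`. -/
noncomputable def mid (r : Finset β → ℕ) (E F B : Finset β) : Finset (Finset β) :=
  E.powerset.filter fun X => Cov r E F X ∧ Cov r E X B

open Classical in
/-- The flats covered by `F`. -/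
noncomputable def below (r : Finset β → ℕ) (E F : Finset β) : Finset (Finset β) :=
  E.powerset.filter fun X => Cov r E X F

theorem mem_mid {r : Finset β → ℕ} {E F B X : Finset β} :
    X ∈ mid r E F B ↔ Cov r E F X ∧ Cov r E X B := by
  classical
  unfold mid
  rw [mem_filter, mem_powerset]
  exact ⟨fun h => h.2, fun h => ⟨h.1.2.1.1, h⟩⟩

theorem mem_below {r : Finset β → ℕ} {E F X : Finset β} : X ∈ below r E F ↔ Cov r E X F := by
  classical
  unfold below
  rw [mem_filter, mem_powerset]
  exact ⟨fun h => h.2, fun h => ⟨h.1.1, h⟩⟩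

/-- The last member of a chain that starts at `F`. -/
def lst (F : Finset β) : List (Finset β) → Finset β
  | [] => F
  | X :: l => lst X l

/-- The relations between the chains above `F`. -/
def Rel (r : Finset β → ℕ) (E F : Finset β) (φ : List (Finset β) → ZMod 2) : Prop :=
  ∀ (l₁ : List (Finset β)) (B : Finset β) (l₂ : List (Finset β)),
    ∑ X ∈ mid r E (lst F l₁) B, φ (l₁ ++ X :: B :: l₂) = 0

theorem Rel.res {r : Finset β → ℕ} {E F : Finset β} {φ : List (Finset β) → ZMod 2} (h : Rel r E F φ)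
    (X : Finset β) : Rel r E X (fun c => φ (X :: c)) := fun l₁ B l₂ => h (X :: l₁) B l₂

theorem Rel.zero (r : Finset β → ℕ) (E F : Finset β) : Rel r E F (fun _ => 0) := fun _ _ _ =>
  sum_const_zero

theorem Rel.add {r : Finset β → ℕ} {E F : Finset β} {φ ψ : List (Finset β) → ZMod 2} (h : Rel r E F φ)
    (h' : Rel r E F ψ) : Rel r E F (fun c => φ c + ψ c) := fun l₁ B l₂ => by
  rw [sum_add_distrib, h l₁ B l₂, h' l₁ B l₂, add_zero]

theorem Rel.sum {κ : Type*} {r : Finset β → ℕ} {E F : Finset β} (s : Finset κ)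
    {φ : κ → List (Finset β) → ZMod 2} (h : ∀ i ∈ s, Rel r E F (φ i)) :
    Rel r E F (fun c => ∑ i ∈ s, φ i c) := fun l₁ B l₂ => by
  rw [sum_comm]
  exact sum_eq_zero fun i hi => h i hi l₁ B l₂

theorem Rel.mul {r : Finset β → ℕ} {E F : Finset β} {φ : List (Finset β) → ZMod 2} (h : Rel r E F φ)
    (a : ZMod 2) : Rel r E F (fun c => a * φ c) := fun l₁ B l₂ => by
  rw [← mul_sum, h l₁ B l₂, mul_zero]

/-- The group of the functions that satisfy the relations. -/
def Phi (r : Finset β → ℕ) (E F : Finset β) : AddSubgroup (List (Finset β) → ZMod 2) where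
  carrier := {φ | Rel r E F φ}
  add_mem' := fun ha hb => ha.add hb
  zero_mem' := Rel.zero r E F
  neg_mem' := fun {x} hx l₁ B l₂ => by
    have h := hx l₁ B l₂
    simp only [Pi.neg_apply, sum_neg_distrib, h, neg_zero]

open Classical in
/-- Transversality. -/
noncomputable def tr (r : Finset β → ℕ) (E A : Finset β) : Finset β → List (Finset β) → ZMod 2
  | F, [] => if F = E then 1 else 0
  | F, X :: l => if Cov r E F X ∧ (A ∩ (X \ F)).card = 1 then tr r E A X l else 0

theorem tr_cons_pos {r : Finset β → ℕ} {E A F X : Finset β} {l : List (Finset β)} (h : Cov r E F X)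
    (h' : (A ∩ (X \ F)).card = 1) : tr r E A F (X :: l) = tr r E A X l := by
  rw [tr, if_pos ⟨h, h'⟩]

theorem tr_cons_neg {r : Finset β → ℕ} {E A F X : Finset β} {l : List (Finset β)}
    (h : (A ∩ (X \ F)).card ≠ 1) : tr r E A F (X :: l) = 0 := by
  rw [tr, if_neg fun h1 => h h1.2]

private theorem rel_base {r : Finset β → ℕ} (hr : RankFn r) {E A F B : Finset β}
    (l : List (Finset β)) : ∑ X ∈ mid r E F B, tr r E A F (X :: B :: l) = 0 := by
  classical
  have e1 : ∀ X ∈ mid r E F B, tr r E A F (X :: B :: l) =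
      if (A ∩ (X \ F)).card = 1 ∧ (A ∩ (B \ X)).card = 1 then tr r E A B l else 0 := by
    intro X hX
    obtain ⟨h1, h2⟩ := mem_mid.1 hX
    by_cases h3 : (A ∩ (X \ F)).card = 1
    · rw [tr_cons_pos h1 h3]
      by_cases h4 : (A ∩ (B \ X)).card = 1
      · rw [tr_cons_pos h2 h4, if_pos ⟨h3, h4⟩]
      · rw [tr_cons_neg h4, if_neg fun h => h4 h.2]
    · rw [tr_cons_neg h3, if_neg fun h => h3 h.1]
  rw [sum_congr rfl e1, ← sum_filter]
  by_cases hex : ∃ X₀ ∈ mid r E F B, (A ∩ (X₀ \ F)).card = 1 ∧ (A ∩ (B \ X₀)).card = 1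
  · obtain ⟨X₀, hX₀, hx, hy⟩ := hex
    obtain ⟨c1, c2⟩ := mem_mid.1 hX₀
    obtain ⟨x, hx⟩ := card_eq_one.1 hx
    obtain ⟨y, hy⟩ := card_eq_one.1 hy
    have mx : x ∈ A ∧ x ∈ X₀ ∧ x ∉ F := by
      have h : x ∈ A ∩ (X₀ \ F) := by
        rw [hx]
        exact mem_singleton_self x
      rw [mem_inter, mem_sdiff] at h
      exact ⟨h.1, h.2.1, h.2.2⟩
    have my : y ∈ A ∧ y ∈ B ∧ y ∉ X₀ := by
      have h : y ∈ A ∩ (B \ X₀) := by
        rw [hy]
        exact mem_singleton_self y
      rw [mem_inter, mem_sdiff] at h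
      exact ⟨h.1, h.2.1, h.2.2⟩
    have hFX : F ⊆ X₀ := c1.2.2.1
    have hXB : X₀ ⊆ B := c2.2.2.1
    have hBE : B ⊆ E := c2.2.1.1
    have hyF : y ∉ F := fun h => my.2.2 (hFX h)
    have hW : ∀ z, z ∈ A → z ∈ B → z ∉ F → z = x ∨ z = y := by
      intro z h1 h2 h3
      by_cases h4 : z ∈ X₀
      · left
        have h : z ∈ A ∩ (X₀ \ F) := mem_inter.2 ⟨h1, mem_sdiff.2 ⟨h4, h3⟩⟩
        rw [hx] at h
        exact mem_singleton.1 h
      · right
        have h : z ∈ A ∩ (B \ X₀) := mem_inter.2 ⟨h1, mem_sdiff.2 ⟨h2, h4⟩⟩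
        rw [hy] at h
        exact mem_singleton.1 h
    obtain ⟨k1, k2⟩ := flat_cover hr c1.1 (mem_sdiff.2 ⟨hBE my.2.1, hyF⟩)
    obtain ⟨k3, k4⟩ := flat_cover hr c1.1 (mem_sdiff.2 ⟨hBE (hXB mx.2.1), mx.2.2⟩)
    have hi : insert y F ⊆ E := insert_subset (hBE my.2.1) c1.1.1
    set X₁ := clo r E (insert y F) with hX₁
    have f1 : IsFlat r E X₁ := clo_flat hr hi
    have f2 : F ⊆ X₁ := (subset_insert _ _).trans (subset_clo hi)
    have f3 : y ∈ X₁ := subset_clo hi (mem_insert_self _ _)
    have f4 : X₁ ⊆ B := (k2 B c2.2.1 (hFX.trans hXB) my.2.1).1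
    have e0 : X₀ = clo r E (insert x F) := (k4 X₀ c1.2.1 hFX mx.2.1).2 c1.2.2.2
    have f5 : x ∉ X₁ := by
      intro h
      have h2 := (k4 X₁ f1 f2 h).2 k1
      rw [← e0] at h2
      rw [h2] at f3
      exact my.2.2 f3
    have cv1 : Cov r E F X₁ := ⟨c1.1, f1, f2, k1⟩
    have cv2 : Cov r E X₁ B := ⟨f1, c2.2.1, f4, by
      have h1 := c1.2.2.2
      have h2 := c2.2.2.2
      omega⟩
    have p1 : (A ∩ (X₁ \ F)).card = 1 := by
      have : A ∩ (X₁ \ F) = {y} := by
        ext z
        rw [mem_inter, mem_sdiff, mem_singleton]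
        constructor
        · rintro ⟨h1, h2, h3⟩
          rcases hW z h1 (f4 h2) h3 with rfl | rfl
          · exact absurd h2 f5
          · rfl
        · rintro rfl
          exact ⟨my.1, f3, hyF⟩
      rw [this, card_singleton]
    have p2 : (A ∩ (B \ X₁)).card = 1 := by
      have : A ∩ (B \ X₁) = {x} := by
        ext z
        rw [mem_inter, mem_sdiff, mem_singleton]
        constructor
        · rintro ⟨h1, h2, h3⟩
          rcases hW z h1 h2 (fun h => h3 (f2 h)) with rfl | rfl
          · rfl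
          · exact absurd f3 h3
        · rintro rfl
          exact ⟨mx.1, hXB mx.2.1, f5⟩
      rw [this, card_singleton]
    have hne : X₀ ≠ X₁ := by
      rintro h
      rw [← h] at f3
      exact my.2.2 f3
    have e2 : (mid r E F B).filter (fun X => (A ∩ (X \ F)).card = 1 ∧ (A ∩ (B \ X)).card = 1) =
        {X₀, X₁} := by
      ext X
      rw [mem_filter, mem_insert, mem_singleton]
      constructor
      · rintro ⟨h1, h2, h3⟩
        obtain ⟨d1, d2⟩ := mem_mid.1 h1
        obtain ⟨z, hz⟩ := card_eq_one.1 h2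
        have mz : z ∈ A ∩ (X \ F) := by
          rw [hz]
          exact mem_singleton_self z
        rw [mem_inter, mem_sdiff] at mz
        rcases hW z mz.1 (d2.2.2.1 mz.2.1) mz.2.2 with rfl | rfl
        · left
          rw [e0]
          exact (k4 X d1.2.1 d1.2.2.1 mz.2.1).2 d1.2.2.2
        · right
          exact (k2 X d1.2.1 d1.2.2.1 mz.2.1).2 d1.2.2.2
      · rintro (rfl | rfl)
        · exact ⟨hX₀, by rw [hx, card_singleton], by rw [hy, card_singleton]⟩
        · exact ⟨mem_mid.2 ⟨cv1, cv2⟩, p1, p2⟩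
    rw [e2, sum_pair hne]
    exact CharTwo.add_self_eq_zero _
  · push Not at hex
    refine sum_eq_zero fun X hX => ?_
    exfalso
    rw [mem_filter] at hX
    exact hex X hX.1 hX.2.1 hX.2.2

theorem rel_tr {r : Finset β → ℕ} (hr : RankFn r) (E A : Finset β) (F : Finset β) :
    Rel r E F (tr r E A F) := by
  intro l₁
  induction l₁ generalizing F with
  | nil => exact fun B l₂ => rel_base hr l₂
  | cons X l ih =>
    intro B l₂
    by_cases h : Cov r E F X ∧ (A ∩ (X \ F)).card = 1
    · have e : ∀ Y, tr r E A F ((X :: l) ++ Y :: B :: l₂) = tr r E A X (l ++ Y :: B :: l₂) :=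
        fun Y => tr_cons_pos h.1 h.2
      simp only [e]
      exact ih X B l₂
    · refine sum_eq_zero fun Y _ => ?_
      show tr r E A F (X :: (l ++ Y :: B :: l₂)) = 0
      rw [tr, if_neg h]

end Pool.Agent.WG59
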