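import Pool.Agent.WG59.Exc

/-!
The extremal choice of note 2777 of MP_e6151a_ag: there is a level on which all excesses are at most one.
-/

set_option autoImplicit false

namespace Pool.Agent.WG59

open Finset Pool.Agent.DT3 Pool.Agent.CF98

variable {α : Type*} [DecidableEq α] {r d : Finset α → ℕ} {E S S' Q Q' A B D W X : Finset α} {v y : α}
  {𝒳 𝒴 : Finset α → Prop} {Df F : Finset α → Finset α} {ρ : ℕ}

/-- All excesses at `X` are at most `m`. -/
def Bd (r d : Finset α → ℕ) (E : Finset α) (F : Finset α → Finset α) (m : ℕ) (X : Finset α) : Prop :=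
  ∀ Q ⊆ X ∩ F X, exc r d ((E \ X) ∩ F X) Q ≤ m

/-- The largest maximiser. -/
structure Mx (r d : Finset α → ℕ) (E : Finset α) (F : Finset α → Finset α) (m : ℕ) (X P : Finset α) :
    Prop where
  sub : P ⊆ X ∩ F X
  eq : exc r d ((E \ X) ∩ F X) P = m
  max : ∀ Q ⊆ X ∩ F X, (m : ℤ) ≤ exc r d ((E \ X) ∩ F X) Q → Q ⊆ P

theorem mx_exists (hr : RankFn r) (hd : RankFn d) {m : ℕ} (hb : Bd r d E F m X)
    (hex : ∃ Q ⊆ X ∩ F X, (m : ℤ) ≤ exc r d ((E \ X) ∩ F X) Q) : ∃ P, Mx r d E F m X P := by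
  classical
  have hne : ((X ∩ F X).powerset.filter fun Q => (m : ℤ) ≤ exc r d ((E \ X) ∩ F X) Q).Nonempty := by
    obtain ⟨Q, h1, h2⟩ := hex
    exact ⟨Q, mem_filter.2 ⟨mem_powerset.2 h1, h2⟩⟩
  obtain ⟨P, hP, hmax⟩ := exists_max_image _ card hne
  rw [mem_filter, mem_powerset] at hP
  refine ⟨P, hP.1, le_antisymm (hb P hP.1) hP.2, fun Q hQ hQm => ?_⟩
  have h1 := exc_super (S := (E \ X) ∩ F X) hr hd P Q
  have h2 := hb (P ∩ Q) (inter_subset_left.trans hP.1)
  have h3 : (m : ℤ) ≤ exc r d ((E \ X) ∩ F X) (P ∪ Q) := by omega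
  have h4 := hmax (P ∪ Q) (mem_filter.2 ⟨mem_powerset.2 (union_subset hP.1 hQ), h3⟩)
  rw [eq_of_subset_of_card_le subset_union_left h4]
  exact subset_union_right

theorem Lv.step (hr : RankFn r) (hd : RankFn d) (hG : ∀ A ⊆ E, A.card ≤ r A + d A + 1)
    (hS : Sy r d E 𝒳 Df) (hL : Lv r d E 𝒳 Df 𝒴 F ρ) (hno : ∀ X, 𝒴 X → ¬ Bd r d E F 1 X) :
    ∃ 𝒴' F' ρ', ρ' < ρ ∧ Lv r d E 𝒳 Df 𝒴' F' ρ' := by
  classical
  -- the smallest bound
  have hexm : ∃ m : ℕ, ∃ X, 𝒴 X ∧ Bd r d E F m X := by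
    obtain ⟨X, hX⟩ := hL.ne
    refine ⟨(X ∩ F X).card + ((E \ X) ∩ F X).card, X, hX, fun Q hQ => ?_⟩
    unfold exc
    have := card_le_card hQ
    push_cast
    omega
  let m := Nat.find hexm
  obtain ⟨X₁, hX₁, hb₁⟩ := Nat.find_spec hexm
  have hmin : ∀ k : ℕ, k < m → ∀ X, 𝒴 X → ¬ Bd r d E F k X := fun k hk X hX hb =>
    Nat.find_min hexm hk ⟨X, hX, hb⟩
  have hm2 : 2 ≤ m := by
    by_contra hcon
    refine hno X₁ hX₁ fun Q hQ => ?_
    have h1 := hb₁ Q hQ
    have h2 : ((Nat.find hexm : ℕ) : ℤ) ≤ (1 : ℕ) := by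
      have : m ≤ 1 := by omega
      exact_mod_cast this
    exact h1.trans h2
  have hlow : ∀ X, 𝒴 X → ∃ Q ⊆ X ∩ F X, (m : ℤ) ≤ exc r d ((E \ X) ∩ F X) Q := by
    intro X hX
    by_contra hcon
    push Not at hcon
    refine hmin (m - 1) (by omega) X hX fun Q hQ => ?_
    have := hcon Q hQ
    push_cast [show 1 ≤ m by omega]
    omega
  have hmx : ∀ X, ∃ P, (𝒴 X ∧ Bd r d E F m X) → Mx r d E F m X P := by
    intro X
    by_cases h : 𝒴 X ∧ Bd r d E F m X
    · obtain ⟨P, hP⟩ := mx_exists hr hd h.2 (hlow X h.1)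
      exact ⟨P, fun _ => hP⟩
    · exact ⟨∅, fun h' => absurd h' h⟩
  choose pp hpp using hmx
  -- the largest rank
  have hne : (E.powerset.filter fun X => 𝒴 X ∧ Bd r d E F m X).Nonempty :=
    ⟨X₁, mem_filter.2 ⟨mem_powerset.2 (hS.sub X₁ (hL.sub X₁ hX₁)), hX₁, hb₁⟩⟩
  obtain ⟨X₀, hX₀, hmax⟩ := exists_max_image _ (fun X => r (clo r E (pp X))) hne
  rw [mem_filter] at hX₀
  have hmax' : ∀ X, 𝒴 X → Bd r d E F m X → r (clo r E (pp X)) ≤ r (clo r E (pp X₀)) :=
    fun X h1 h2 => hmax X (mem_filter.2 ⟨mem_powerset.2 (hS.sub X (hL.sub X h1)), h1, h2⟩)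
  have hppE : ∀ X, 𝒴 X → Bd r d E F m X → pp X ⊆ E := fun X h1 h2 =>
    (hpp X ⟨h1, h2⟩).sub.trans (inter_subset_left.trans (hS.sub X (hL.sub X h1)))
  have hppF : ∀ X, 𝒴 X → Bd r d E F m X → Df X ⊆ pp X := by
    intro X h1 h2
    by_contra hcon
    obtain ⟨u, hu, hun⟩ := not_subset.1 hcon
    have h3 := hL.low hr hd hS h1 h2 hu (hpp X ⟨h1, h2⟩).sub hun
    have h4 := (hpp X ⟨h1, h2⟩).eq
    omega
  refine ⟨fun X => (𝒴 X ∧ Bd r d E F m X) ∧ r (clo r E (pp X)) = r (clo r E (pp X₀)),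
    fun X => clo r E (pp X), r (clo r E (pp X₀)), ?_, ?_⟩
  · -- the rank goes down
    have h1 := hpp X₀ hX₀.2
    have h2 : r (pp X₀) ≤ r (X₀ ∩ F X₀) := hr.mono _ _ h1.sub
    rw [hL.sp X₀ hX₀.2.1, hL.rk X₀ hX₀.2.1] at h2
    rw [rank_clo hr (hppE X₀ hX₀.2.1 hX₀.2.2)]
    refine lt_of_le_of_ne h2 fun h3 => ?_
    have h4 := exc_mono_cl (S := (E \ X₀) ∩ F X₀) (r := r) hd h1.sub (by
      rw [hL.sp X₀ hX₀.2.1, hL.rk X₀ hX₀.2.1, h3])
    have h5 := hL.top hG hX₀.2.1
    rw [h1.eq] at h4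
    omega
  · refine ⟨fun X hX => hL.sub X hX.1.1, ⟨X₀, hX₀.2, rfl⟩,
      fun X hX => clo_flat hr (hppE X hX.1.1 hX.1.2), fun X hX => hX.2, ?_, ?_, ?_⟩
    · intro X hX
      have h1 := hppE X hX.1.1 hX.1.2
      refine le_antisymm (hr.mono _ _ inter_subset_right) ?_
      rw [rank_clo hr h1]
      exact hr.mono _ _ (subset_inter ((hpp X hX.1).sub.trans inter_subset_left) (subset_clo h1))
    · intro X hX
      exact (hppF X hX.1.1 hX.1.2).trans (subset_clo (hppE X hX.1.1 hX.1.2))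
    · rintro X ⟨⟨hX, hb⟩, hrk⟩ v hv y hy
      obtain ⟨hyF, hX', hFF⟩ := hL.mv X hX v hv y hy
      have hP := hpp X ⟨hX, hb⟩
      have hDP := hppF X hX hb
      have hPE := hppE X hX hb
      have hb' : Bd r d E F m (mvd X v y) := hL.keep hr hd hS hX hb hv hy
      have hP' := hpp (mvd X v y) ⟨hX', hb'⟩
      have hyX : y ∉ X := (mem_sdiff.1 hy.1).2
      have hvX : v ∈ X := hS.Dsub X (hL.sub X hX) hv
      have hvP : v ∈ pp X := hDP hv
      have hvF : v ∈ F X := hL.Ds X hX hv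
      -- `y` is in the closure of `pp X`
      have hycl : r (insert y (pp X)) = r (pp X) := by
        obtain ⟨Q, hQ, hQm⟩ := hlow (mvd X v y) hX'
        rw [hFF] at hQ hQm
        rw [hL.ex_eq hd hS hX hv hy Q] at hQm
        have h4 : Q.erase y ⊆ X ∩ F X := by
          intro z hz
          rw [mem_erase] at hz
          have h5 := mem_inter.1 (hQ hz.2)
          unfold mvd at h5
          rw [mem_insert, mem_erase] at h5
          rcases h5.1 with h6 | h6
          · exact absurd h6 hz.1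
          · exact mem_inter.2 ⟨h6.2, h5.2⟩
        have h5 : v ∉ Q.erase y := by
          intro h
          rw [mem_erase] at h
          have h6 := (mem_inter.1 (hQ h.2)).1
          unfold mvd at h6
          rw [mem_insert, mem_erase] at h6
          rcases h6 with h7 | h7
          · exact h.1 h7
          · exact h7.1 rfl
        have h6 := hL.low hr hd hS hX hb hv h4 h5
        have hyQ : y ∈ Q := by
          by_contra hn
          rw [erase_eq_of_notMem hn] at h6
          omega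
        have h7 := exc_erase (r := r) (S := (E \ X) ∩ F X) hd hyQ
        have h8 := hr.mono _ _ (erase_subset y Q)
        have h9 : r Q = r (Q.erase y) := by omega
        -- `Q - y` is inside `pp X`
        have h10 := exc_super (S := (E \ X) ∩ F X) hr hd (Q.erase y) (pp X)
        have h11 := hL.low hr hd hS hX hb hv (Q := Q.erase y ∩ pp X) (inter_subset_left.trans h4)
          (fun h => h5 (mem_inter.1 h).1)
        have h12 := hP.eq
        have h13 : (m : ℤ) ≤ exc r d ((E \ X) ∩ F X) (Q.erase y ∪ pp X) := by omega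
        have h14 := hP.max _ (union_subset h4 hP.sub) h13
        have h15 : Q.erase y ⊆ pp X := subset_union_left.trans h14
        have h16 : r (insert y (Q.erase y)) = r (Q.erase y) := by rw [insert_erase hyQ, h9]
        exact hr.mono_insert h16 h15
      have hyc : y ∈ clo r E (pp X) := mem_filter.2 ⟨(mem_sdiff.1 hy.1).1, hycl⟩
      -- the maximiser after the move
      have hvr : r ((pp X).erase v) = r (pp X) := by
        have h1 := hS.Dco X (hL.sub X hX) v hv
        have h2 : r (insert v ((Df X).erase v)) = r ((Df X).erase v) := by rw [insert_erase hv, h1]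
        have h3 := hr.mono_insert h2 (erase_subset_erase v hDP)
        rw [insert_erase hvP] at h3
        exact h3.symm
      have hyv : r (insert y ((pp X).erase v)) = r (pp X) := by
        refine le_antisymm ?_ ?_
        · rw [← hycl]
          exact hr.mono _ _ (insert_subset_insert y (erase_subset v (pp X)))
        · rw [← hvr]
          exact hr.mono _ _ (subset_insert y _)
      have hyP : y ∉ pp X := fun h => hyX (mem_inter.1 (hP.sub h)).1
      have hPn : mvd (pp X) v y ⊆ mvd X v y ∩ F (mvd X v y) := by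
        rw [hFF]
        intro z hz
        unfold mvd at hz ⊢
        rw [mem_insert, mem_erase] at hz
        rw [mem_inter, mem_insert, mem_erase]
        rcases hz with rfl | hz
        · exact ⟨Or.inl rfl, hyF⟩
        · have := mem_inter.1 (hP.sub hz.2)
          exact ⟨Or.inr ⟨hz.1, this.1⟩, this.2⟩
      have hPm : (m : ℤ) ≤ exc r d ((E \ mvd X v y) ∩ F (mvd X v y)) (mvd (pp X) v y) := by
        rw [hFF, hL.ex_eq hd hS hX hv hy]
        have h1 := hP.eq
        unfold exc at h1 ⊢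
        have h2 : (mvd (pp X) v y).card = (pp X).card := by
          unfold mvd
          rw [card_insert_of_notMem (fun h => hyP (mem_of_mem_erase h)), card_erase_of_mem hvP]
          have := card_pos.2 ⟨v, hvP⟩
          omega
        have h3 : r (mvd (pp X) v y) = r (pp X) := hyv
        have h4 : d ((E \ X) ∩ F X ∪ mvd (pp X) v y) ≤ d ((E \ X) ∩ F X ∪ pp X) := by
          refine hd.mono _ _ ?_
          intro z hz
          unfold mvd at hz
          rw [mem_union, mem_insert, mem_erase] at hz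
          rcases hz with hz | rfl | hz
          · exact mem_union_left _ hz
          · exact mem_union_left _ (mem_inter.2 ⟨hy.1, hyF⟩)
          · exact mem_union_right _ hz.2
        rw [h2, h3]
        omega
      have hsub := hP'.max _ hPn hPm
      have hPE' := hppE (mvd X v y) hX' hb'
      -- the closures agree
      have hcl : clo r E (pp X) ⊆ clo r E (pp (mvd X v y)) := by
        refine clo_sub_flat hr (clo_flat hr hPE') ?_
        intro z hz
        by_cases hzv : z = v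
        · subst hzv
          have h1 : r (insert z (mvd (pp X) z y)) = r (mvd (pp X) z y) := by
            unfold mvd
            rw [insert_comm, insert_erase hvP, hyv, hycl]
          exact mem_filter.2 ⟨hPE hz, hr.mono_insert h1 hsub⟩
        · refine subset_clo hPE' (hsub ?_)
          unfold mvd
          exact mem_insert_of_mem (mem_erase.2 ⟨hzv, hz⟩)
      have hrk' := hmax' _ hX' hb'
      have hrk2 := hr.mono _ _ hcl
      have hrk3 : r (clo r E (pp (mvd X v y))) = r (clo r E (pp X₀)) := by omega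
      refine ⟨hyc, ⟨⟨hX', hb'⟩, hrk3⟩, ?_⟩
      by_contra hne'
      have h1 : clo r E (pp X) ⊂ clo r E (pp (mvd X v y)) :=
        Finset.ssubset_iff_subset_ne.2 ⟨hcl, fun h => hne' h.symm⟩
      have h2 := flat_lt hr (clo_flat hr hPE) clo_sub h1
      omega

/-- There is a level on which all excesses are at most one. -/
theorem Lv.last (hr : RankFn r) (hd : RankFn d) (hG : ∀ A ⊆ E, A.card ≤ r A + d A + 1)
    (hS : Sy r d E 𝒳 Df) (hne : ∃ X, 𝒳 X) :
    ∃ 𝒴 F ρ, Lv r d E 𝒳 Df 𝒴 F ρ ∧ ∀ X, 𝒴 X → Bd r d E F 1 X := by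
  classical
  have key : ∀ ρ, ∀ (𝒴 : Finset α → Prop) (F : Finset α → Finset α), Lv r d E 𝒳 Df 𝒴 F ρ →
      ∃ 𝒴 F ρ, Lv r d E 𝒳 Df 𝒴 F ρ ∧ ∀ X, 𝒴 X → Bd r d E F 1 X := by
    intro ρ
    induction ρ using Nat.strong_induction_on with
    | _ ρ ih =>
      intro 𝒴 F hL
      by_cases h : ∃ X, 𝒴 X ∧ Bd r d E F 1 X
      · refine ⟨fun X => 𝒴 X ∧ Bd r d E F 1 X, F, ρ, ?_, fun X hX => hX.2⟩
        refine ⟨fun X hX => hL.sub X hX.1, h, fun X hX => hL.flat X hX.1, fun X hX => hL.rk X hX.1,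
          fun X hX => hL.sp X hX.1, fun X hX => hL.Ds X hX.1, ?_⟩
        intro X hX v hv y hy
        obtain ⟨h1, h2, h3⟩ := hL.mv X hX.1 v hv y hy
        exact ⟨h1, ⟨h2, hL.keep hr hd hS hX.1 hX.2 hv hy⟩, h3⟩
      · push Not at h
        obtain ⟨𝒴', F', ρ', h1, h2⟩ := hL.step hr hd hG hS h
        exact ih ρ' h1 𝒴' F' h2
  exact key (r E) 𝒳 _ (Lv.base hr hS hne)

end Pool.Agent.WG59
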