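import Pool.Agent.WG59.Ex

/-!
Exactness of the cochain complex of the independence complex of a matroid below the top degree (values in a group of exponent two).
-/

set_option autoImplicit false

namespace Pool.Agent.WG59

open Finset Pool.Agent.DT3

variable {β V : Type*} [DecidableEq β] [AddCommGroup V]

/-- The contraction of a non-loop. -/
def ctr (x : Finset β → ℕ) (e : β) (Y : Finset β) : ℕ := x (insert e Y) - 1

private theorem ge_one {x : Finset β → ℕ} (hx : RankFn x) {e : β} (he : x {e} = 1) (Y : Finset β) :
    1 ≤ x (insert e Y) := by
  rw [← he]
  exact hx.mono _ _ (singleton_subset_iff.2 (mem_insert_self e Y))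

theorem ctr_rank {x : Finset β → ℕ} (hx : RankFn x) {e : β} (he : x {e} = 1) : RankFn (ctr x e) where
  empty := by
    unfold ctr
    rw [insert_empty_eq, he]
  mono := fun X Y h => by
    unfold ctr
    have := hx.mono _ _ (insert_subset_insert e h)
    omega
  insert_le := fun y X => by
    unfold ctr
    have h1 := hx.insert_le y (insert e X)
    rw [insert_comm] at h1
    have h2 := ge_one hx he X
    omega
  submod := fun X Y => by
    unfold ctr
    have h1 := hx.submod (insert e X) (insert e Y)
    have e1 : insert e X ∪ insert e Y = insert e (X ∪ Y) := by
      ext z
      simp only [mem_union, mem_insert]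
      tauto
    have e2 : insert e X ∩ insert e Y = insert e (X ∩ Y) := by
      ext z
      simp only [mem_inter, mem_insert]
      tauto
    rw [e1, e2] at h1
    have h2 := ge_one hx he X
    have h3 := ge_one hx he Y
    have h4 := ge_one hx he (X ∪ Y)
    have h5 := ge_one hx he (X ∩ Y)
    omega

private theorem ind_of_sub {x : Finset β → ℕ} (hx : RankFn x) {A B : Finset β} (h : x A = A.card)
    (hBA : B ⊆ A) : x B = B.card := by
  have h1 := hx.submod B (A \ B)
  rw [union_sdiff_of_subset hBA] at h1
  have h2 := hx.le_card (A \ B)
  have h3 := hx.le_card B
  have h4 := card_sdiff_of_subset hBA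
  have h5 := card_le_card hBA
  omega

theorem ex_mat (h2 : ∀ v : V, v + v = 0) (n : ℕ) : ∀ (x : Finset β → ℕ) (_ : RankFn x) (U : Finset β)
    (j : ℕ) (ω : Finset β → V), U.card ≤ n → j + 1 ≤ x U →
    (∀ A ⊆ U, A.card = j + 1 → x A = A.card → cb ω A = 0) →
    ∃ ψ : Finset β → V, ∀ A ⊆ U, A.card = j → x A = A.card → cb ψ A = ω A := by
  classical
  induction n with
  | zero =>
    intro x hx U j ω hn hU _
    have h1 : U = ∅ := card_eq_zero.1 (by omega)
    rw [h1, hx.empty] at hU
    omega
  | succ n ih =>
    intro x hx U j ω hn hU hω
    have hne : U.Nonempty := by
      rw [nonempty_iff_ne_empty]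
      rintro rfl
      rw [hx.empty] at hU
      omega
    obtain ⟨e, he⟩ := hne
    have hUe : (U.erase e).card ≤ n := by
      rw [card_erase_of_mem he]
      omega
    have hins : insert e (U.erase e) = U := insert_erase he
    have hmono := hx.mono (U.erase e) U (erase_subset e U)
    have hinsle := hx.insert_le e (U.erase e)
    rw [hins] at hinsle
    rcases Nat.eq_zero_or_pos (x {e}) with hl | hl
    · -- a loop
      have h3 : x (U.erase e) = x U := by
        have h4 := hx.submod {e} (U.erase e)
        rw [singleton_union, hins] at h4
        omega
      obtain ⟨ψ, hψ⟩ := ih x hx (U.erase e) j ω hUe (by omega)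
        (fun A hA => hω A (hA.trans (erase_subset e U)))
      refine ⟨ψ, fun A hA hAj hAx => hψ A (fun z hz => mem_erase.2 ⟨?_, hA hz⟩) hAj hAx⟩
      rintro rfl
      have h5 := ind_of_sub hx hAx (singleton_subset_iff.2 hz)
      rw [card_singleton] at h5
      omega
    · have he1 : x {e} = 1 := by
        have := hx.le_card {e}
        rw [card_singleton] at this
        omega
      by_cases hco : x (U.erase e) = x U
      · -- not a coloop
        obtain ⟨ψ₀, hψ₀⟩ := ih x hx (U.erase e) j ω hUe (by omega)
          (fun A hA => hω A (hA.trans (erase_subset e U)))
        rcases Nat.eq_zero_or_pos j with hj | hj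
        · refine ⟨ψ₀, fun A hA hAj hAx => ?_⟩
          have hA0 : A = ∅ := card_eq_zero.1 (by omega)
          subst hA0
          exact hψ₀ ∅ (empty_subset _) hAj hAx
        · obtain ⟨k, rfl⟩ : ∃ k, j = k + 1 := ⟨j - 1, by omega⟩
          have hx' := ctr_rank hx he1
          have hcI : ∀ C, e ∉ C → ctr x e C = C.card → x (insert e C) = (insert e C).card := by
            intro C hC h
            unfold ctr at h
            have := ge_one hx he1 C
            rw [card_insert_of_notMem hC]
            omega
          obtain ⟨θ, hθ⟩ := ih (ctr x e) hx' (U.erase e) k (fun B => ω (insert e B) + ψ₀ B) hUe (by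
            unfold ctr
            rw [hins]
            omega) (by
            intro C hC hCk hCx
            have heC : e ∉ C := fun h => notMem_erase e U (hC h)
            have hI := hcI C heC hCx
            have h5 := hω (insert e C) (insert_subset he (hC.trans (erase_subset e U)))
              (by rw [card_insert_of_notMem heC, hCk]) hI
            rw [cb_insert ω heC] at h5
            have h6 := eq_of_add h2 h5
            have h7 := hψ₀ C hC hCk (ind_of_sub hx hI (subset_insert e C))
            have e1 : cb (fun B => ω (insert e B) + ψ₀ B) C =
                ∑ c ∈ C, ω (insert e (C.erase c)) + cb ψ₀ C := by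
              unfold cb
              exact sum_add_distrib
            rw [e1, h6, h7, h2])
          refine ⟨fun A => if e ∈ A then θ (A.erase e) else ψ₀ A, fun A hA hAj hAx => ?_⟩
          by_cases heA : e ∈ A
          · have e1 : A = insert e (A.erase e) := (insert_erase heA).symm
            set B := A.erase e with hB
            have heB : e ∉ B := notMem_erase e A
            have hBc : B.card = k := by
              rw [hB, card_erase_of_mem heA]
              omega
            have hBx : ctr x e B = B.card := by
              unfold ctr
              rw [← e1, hAx, hAj, hBc]
              omega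
            have h5 := hθ B (fun z hz => mem_erase.2 ⟨fun h => heB (h ▸ hz), hA (mem_of_mem_erase hz)⟩)
              hBc hBx
            rw [e1, cb_insert _ heB, if_neg heB]
            have e2 : ∑ b ∈ B, (if e ∈ insert e (B.erase b) then θ ((insert e (B.erase b)).erase e)
                else ψ₀ (insert e (B.erase b))) = cb θ B := by
              unfold cb
              refine sum_congr rfl fun b _ => ?_
              rw [if_pos (mem_insert_self _ _), erase_insert]
              exact fun h => heB (mem_of_mem_erase h)
            rw [e2, h5, add_comm (ω (insert e B)), ← add_assoc, h2, zero_add]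
          · have h5 := hψ₀ A (fun z hz => mem_erase.2 ⟨fun h => heA (h ▸ hz), hA hz⟩) hAj hAx
            rw [← h5]
            unfold cb
            exact sum_congr rfl fun a _ => if_neg fun h => heA (mem_of_mem_erase h)
      · -- a coloop
        refine ⟨fun B => if e ∈ B then 0 else ω (insert e B), fun A hA hAj hAx => ?_⟩
        by_cases heA : e ∈ A
        · have e1 : A = insert e (A.erase e) := (insert_erase heA).symm
          set B := A.erase e
          have heB : e ∉ B := notMem_erase e A
          rw [e1, cb_insert _ heB, if_neg heB, sum_eq_zero, add_zero]
          intro b _
          exact if_pos (mem_insert_self _ _)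
        · have hAe : A ⊆ U.erase e := fun z hz => mem_erase.2 ⟨fun h => heA (h ▸ hz), hA hz⟩
          have h5 : x (insert e A) = (insert e A).card := by
            have h6 := hx.submod (insert e A) (U.erase e)
            have e2 : insert e A ∪ U.erase e = U := by
              ext z
              rw [mem_union, mem_insert]
              constructor
              · rintro ((h | h) | h)
                · exact h ▸ he
                · exact hA h
                · exact mem_of_mem_erase h
              · intro h
                by_cases hz : z = e
                · exact Or.inl (Or.inl hz)
                · exact Or.inr (mem_erase.2 ⟨hz, h⟩)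
            have e3 : insert e A ∩ U.erase e = A := by
              ext z
              rw [mem_inter, mem_insert]
              constructor
              · rintro ⟨h | h, h'⟩
                · exact absurd h (mem_erase.1 h').1
                · exact h
              · intro h
                exact ⟨Or.inr h, hAe h⟩
            rw [e2, e3] at h6
            have h7 := hx.le_card (insert e A)
            rw [card_insert_of_notMem heA] at h7 ⊢
            omega
          have h6 := hω (insert e A) (insert_subset he hA) (by rw [card_insert_of_notMem heA, hAj]) h5
          rw [cb_insert ω heA] at h6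
          have h7 := eq_of_add h2 h6
          rw [← h7]
          unfold cb
          exact sum_congr rfl fun a _ => if_neg fun h => heA (mem_of_mem_erase h)

end Pool.Agent.WG59
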