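import Pool.Agent.WG59.ZigG

/-!
The colour theorem for a pair of matroids.

* `tr_erase_sum`: the transversal faces of a set with one element too many come in pairs;
* `thW`: `r E + 1 ≤ x E` and `r E + 1 ≤ x (E \ F) + r F` for the proper flats `F` of `r`; if the bases of `r` inside every
  `x`-independent set with `r E + 1` elements have one colour then all bases of `r` that are `x`-independent have one colour.
-/

set_option autoImplicit false

namespace Pool.Agent.WG59

open Finset Pool.Agent.DT3

variable {β : Type*} [DecidableEq β]

/-- Transversality depends only on the part outside the lowest flat. -/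
theorem tr_congr {r : Finset β → ℕ} {E A A' : Finset β} : ∀ (c : List (Finset β)) (F : Finset β),
    A \ F = A' \ F → tr r E A F c = tr r E A' F c := by
  intro c
  induction c with
  | nil =>
    intro F _
    rw [tr, tr]
  | cons X c ih =>
    intro F h
    have e1 : A ∩ (X \ F) = A' ∩ (X \ F) := by
      ext z
      have h1 := Finset.ext_iff.1 h z
      simp only [mem_sdiff, mem_inter] at h1 ⊢
      tauto
    rw [tr, tr, e1]
    by_cases hc : Cov r E F X ∧ (A' ∩ (X \ F)).card = 1
    · rw [if_pos hc, if_pos hc]
      refine ih X ?_
      ext z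
      have h1 := Finset.ext_iff.1 h z
      have h2 := @hc.1.2.2.1 z
      simp only [mem_sdiff] at h1 ⊢
      tauto
    · rw [if_neg hc, if_neg hc]

/-- The transversal faces of a set with one element too many come in pairs. -/
theorem tr_erase_sum {r : Finset β → ℕ} {E B : Finset β} (hB : B ⊆ E) :
    ∀ (c : List (Finset β)) (F : Finset β), ∑ g ∈ B \ F, tr r E (B.erase g) F c = 0 := by
  intro c
  induction c with
  | nil =>
    intro F
    by_cases hF : F = E
    · subst hF
      rw [sdiff_eq_empty_iff_subset.2 hB, sum_empty]
    · refine sum_eq_zero fun g _ => ?_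
      rw [tr, if_neg hF]
  | cons X c ih =>
    intro F
    by_cases hcov : Cov r E F X
    · have hFX := hcov.2.2.1
      have hsplit : B \ F = (B \ X) ∪ (B ∩ (X \ F)) := by
        ext z
        have := @hFX z
        simp only [mem_sdiff, mem_union, mem_inter]
        tauto
      have hdis : Disjoint (B \ X) (B ∩ (X \ F)) := by
        rw [Finset.disjoint_left]
        intro z hz hz'
        exact (mem_sdiff.1 hz).2 (mem_sdiff.1 (mem_inter.1 hz').2).1
      rw [hsplit, sum_union hdis]
      -- outside `X` the step is not changed
      have e1 : ∀ g ∈ B \ X, (B.erase g) ∩ (X \ F) = B ∩ (X \ F) := by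
        intro g hg
        ext z
        simp only [mem_inter, mem_erase, mem_sdiff]
        constructor
        · rintro ⟨⟨_, h2⟩, h3⟩
          exact ⟨h2, h3⟩
        · rintro ⟨h2, h3⟩
          refine ⟨⟨?_, h2⟩, h3⟩
          rintro rfl
          exact (mem_sdiff.1 hg).2 h3.1
      have e2 : ∀ g ∈ B ∩ (X \ F), ((B.erase g) ∩ (X \ F)).card + 1 = (B ∩ (X \ F)).card := by
        intro g hg
        have : (B.erase g) ∩ (X \ F) = (B ∩ (X \ F)).erase g := by
          ext z
          simp only [mem_inter, mem_erase]
          tauto
        rw [this, card_erase_of_mem hg]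
        have := card_pos.2 ⟨g, hg⟩
        omega
      by_cases h1 : (B ∩ (X \ F)).card = 1
      · have s1 : ∑ g ∈ B \ X, tr r E (B.erase g) F (X :: c) = 0 := by
          rw [← ih X]
          refine sum_congr rfl fun g hg => ?_
          exact tr_cons_pos hcov (by rw [e1 g hg, h1])
        have s2 : ∑ g ∈ B ∩ (X \ F), tr r E (B.erase g) F (X :: c) = 0 := by
          refine sum_eq_zero fun g hg => ?_
          refine tr_cons_neg ?_
          have := e2 g hg
          omega
        rw [s1, s2, add_zero]
      · have s1 : ∑ g ∈ B \ X, tr r E (B.erase g) F (X :: c) = 0 := by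
          refine sum_eq_zero fun g hg => ?_
          refine tr_cons_neg ?_
          rw [e1 g hg]
          exact h1
        have s2 : ∑ g ∈ B ∩ (X \ F), tr r E (B.erase g) F (X :: c) = 0 := by
          by_cases h2 : (B ∩ (X \ F)).card = 2
          · have s3 : ∀ g ∈ B ∩ (X \ F), tr r E (B.erase g) F (X :: c) = tr r E B X c := by
              intro g hg
              rw [tr_cons_pos hcov (by
                have := e2 g hg
                omega)]
              refine tr_congr c X ?_
              ext z
              simp only [mem_sdiff, mem_erase]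
              constructor
              · rintro ⟨⟨_, h3⟩, h4⟩
                exact ⟨h3, h4⟩
              · rintro ⟨h3, h4⟩
                refine ⟨⟨?_, h3⟩, h4⟩
                rintro rfl
                rw [mem_inter, mem_sdiff] at hg
                exact h4 hg.2.1
            rw [sum_congr rfl s3, sum_const, h2, two_nsmul]
            exact CharTwo.add_self_eq_zero _
          · refine sum_eq_zero fun g hg => ?_
            refine tr_cons_neg ?_
            have := e2 g hg
            omega
        rw [s1, s2, add_zero]
    · refine sum_eq_zero fun g _ => ?_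
      rw [tr, if_neg fun h => hcov h.1]

/-- The colour theorem for a pair of matroids. -/
theorem thW {r x : Finset β → ℕ} {E : Finset β} {χ : Finset β → ZMod 2} (hr : RankFn r) (hx : RankFn x)
    (hl : ∀ e ∈ E, 0 < r {e}) (hxE : r E + 1 ≤ x E)
    (hF : ∀ F, IsFlat r E F → F ≠ E → r E + 1 ≤ x (E \ F) + r F)
    (hc : ∀ B ⊆ E, B.card = r E + 1 → x B = B.card → ∀ g ∈ B, ∀ h ∈ B, r (B.erase g) = r E →
      r (B.erase h) = r E → χ (B.erase g) = χ (B.erase h))
    {b b' : Finset β} (hb : b ⊆ E) (hbc : b.card = r E) (hbr : r b = r E) (hbx : x b = b.card)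
    (hb' : b' ⊆ E) (hbc' : b'.card = r E) (hbr' : r b' = r E) (hbx' : x b' = b'.card) :
    χ b = χ b' := by
  classical
  refine aG (I := fun A => x A = A.card) hr hl ?_ ?_ ?_ ⟨hb, hbc, hbx⟩ hbr ⟨hb', hbc', hbx'⟩ hbr'
  · intro A B hBA hA
    have h1 := hx.submod B (A \ B)
    rw [union_sdiff_of_subset hBA] at h1
    have h2 := hx.le_card (A \ B)
    have h3 := hx.le_card B
    have h4 := card_sdiff_of_subset hBA
    have h5 := card_le_card hBA
    show x B = B.card
    have h6 : x A = A.card := hA
    omega
  · obtain ⟨ψ, hψ⟩ := ex_mat (V := Phi r E ∅) two_fun E.card x hx E (r E)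
      (fun A => ⟨fun c => χ A * tr r E A ∅ c, (rel_tr hr E A ∅).mul (χ A)⟩) le_rfl hxE (by
        intro B hB hBc hBx
        refine Subtype.ext ?_
        unfold cb
        rw [coe_sumP]
        funext c
        rw [Finset.sum_apply]
        show ∑ g ∈ B, χ (B.erase g) * tr r E (B.erase g) ∅ c = 0
        have hsum := tr_erase_sum (r := r) hB c ∅
        rw [sdiff_empty] at hsum
        by_cases hex : ∃ g ∈ B, tr r E (B.erase g) ∅ c ≠ 0
        · obtain ⟨g, hg, hgt⟩ := hex
          have key : ∀ g ∈ B, tr r E (B.erase g) ∅ c ≠ 0 → r (B.erase g) = r E := by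
            intro g hg hgt
            have h1 := (tr_rank hr ((erase_subset g B).trans hB) c ∅ hgt).2
            rw [union_empty] at h1
            exact le_antisymm (hr.mono _ _ ((erase_subset g B).trans hB)) h1
          have e1 : ∀ h ∈ B, χ (B.erase h) * tr r E (B.erase h) ∅ c =
              χ (B.erase g) * tr r E (B.erase h) ∅ c := by
            intro h hh
            by_cases h0 : tr r E (B.erase h) ∅ c = 0
            · rw [h0, mul_zero, mul_zero]
            · rw [hc B hB hBc hBx h hh g hg (key h hh h0) (key g hg hgt)]
          rw [sum_congr rfl e1, ← mul_sum, hsum, mul_zero]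
        · push Not at hex
          refine sum_eq_zero fun g hg => ?_
          rw [hex g hg, mul_zero])
    refine ⟨ψ, fun A hA c => ?_⟩
    have h1 := congrArg Subtype.val (hψ A hA.1 hA.2.1 hA.2.2)
    have h2 := congrFun h1 c
    unfold cb at h2
    rw [coe_sumP, Finset.sum_apply] at h2
    exact h2
  · intro F hFf hFE _ ω hω
    obtain ⟨ψ, hψ⟩ := ex_mat (V := Phi r E F) two_fun (E \ F).card x hx (E \ F) (r E - r F) ω le_rfl (by
      have h1 := hF F hFf hFE
      have h2 := flat_lt_E hr hFf hFE
      omega) (fun A hA hAc hAx => hω A ⟨hA, hAc, hAx⟩)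
    exact ⟨ψ, fun A hA => hψ A hA.1 hA.2.1 hA.2.2⟩

end Pool.Agent.WG59
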