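import Pool.Agent.WG59.Fl

/-!
The zigzag.  `χ` is a function on the full transversals of `π`; `ψ F` is a cochain on the transversals outside the flat `F` with values
in the functions on the flags above `F`.

* `om`: the right-hand side of the zigzag equations;
* `Zig`: the zigzag equations for the transversals inside `U`;
* `sc`: the final scalar;
* `zig_ex`: existence (uses the size of the complements of the flats);
* `zig_uni`: the final scalar is unique if `U` is a transversal that is not contained in a proper flat.
-/

set_option autoImplicit false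

namespace Pool.Agent.WG59

open Finset Pool.Agent.DT3

variable {β ι : Type*} [DecidableEq β] [DecidableEq ι]

/-- The right-hand side. -/
noncomputable def om (r : Finset β → ℕ) (E : Finset β) (χ : Finset β → ZMod 2)
    (ψ : Finset β → Finset β → List (Finset β) → ZMod 2) (F A : Finset β) (c : List (Finset β)) : ZMod 2 :=
  if r F = 0 then χ A * tr r E A F c else ∑ F' ∈ below r E F, ψ F' A (F :: c)

/-- The zigzag equations. -/
def Zig (r : Finset β → ℕ) (E U : Finset β) (π : β → ι) (χ : Finset β → ZMod 2)
    (ψ : Finset β → Finset β → List (Finset β) → ZMod 2) : Prop :=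
  (∀ F B, Rel r E F (ψ F B)) ∧ ∀ F, IsFlat r E F → F ≠ E → ∀ A, Fc π (U \ F) (r E - r F) A →
    ∀ c, (∑ a ∈ A, ψ F (A.erase a) c) = om r E χ ψ F A c

/-- The final scalar. -/
noncomputable def sc (r : Finset β → ℕ) (E : Finset β)
    (ψ : Finset β → Finset β → List (Finset β) → ZMod 2) : ZMod 2 :=
  ∑ H ∈ below r E E, ψ H ∅ [E]

theorem Zig.mono {r : Finset β → ℕ} {E U U' : Finset β} {π : β → ι} {χ : Finset β → ZMod 2}
    {ψ : Finset β → Finset β → List (Finset β) → ZMod 2} (h : Zig r E U π χ ψ) (hU : U' ⊆ U) :
    Zig r E U' π χ ψ :=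
  ⟨h.1, fun F hF hFE A hA => h.2 F hF hFE A ⟨hA.1.trans (sdiff_subset_sdiff hU (subset_refl _)), hA.2⟩⟩

/-- Exchanging the order of the two covers. -/
theorem sum_below_below {r : Finset β → ℕ} {E F : Finset β} (g : Finset β → Finset β → ZMod 2) :
    ∑ F' ∈ below r E F, ∑ F'' ∈ below r E F', g F'' F' =
      ∑ F'' ∈ E.powerset, ∑ F' ∈ mid r E F'' F, g F'' F' := by
  classical
  unfold below mid
  simp only [sum_filter]
  have e : ∀ X ∈ E.powerset, (if Cov r E X F then ∑ Y ∈ E.powerset, (if Cov r E Y X then g Y X else 0)
      else 0) = ∑ Y ∈ E.powerset, (if Cov r E Y X ∧ Cov r E X F then g Y X else 0) := by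
    intro X _
    by_cases h : Cov r E X F
    · rw [if_pos h]
      refine sum_congr rfl fun Y _ => ?_
      by_cases h' : Cov r E Y X
      · rw [if_pos h', if_pos ⟨h', h⟩]
      · rw [if_neg h', if_neg fun hh => h' hh.1]
    · rw [if_neg h]
      exact (sum_eq_zero fun Y _ => if_neg fun hh => h hh.2).symm
  rw [sum_congr rfl e, sum_comm]

theorem sum_below_rel {r : Finset β → ℕ} {E F : Finset β}
    {φ : Finset β → List (Finset β) → ZMod 2} (hφ : ∀ F', Rel r E F' (φ F')) (c : List (Finset β)) :
    ∑ F' ∈ below r E F, ∑ F'' ∈ below r E F', φ F'' (F' :: F :: c) = 0 := by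
  rw [sum_below_below (fun Y X => φ Y (X :: F :: c))]
  exact sum_eq_zero fun Y _ => hφ Y [] F c

theorem two_fun {F E : Finset β} {r : Finset β → ℕ} (v : Phi r E F) : v + v = 0 :=
  Subtype.ext (funext fun _ => CharTwo.add_self_eq_zero _)

theorem coe_sumP {κ : Type*} {F E : Finset β} {r : Finset β → ℕ} (s : Finset κ) (v : κ → Phi r E F) :
    ((∑ i ∈ s, v i : Phi r E F) : List (Finset β) → ZMod 2) = ∑ i ∈ s, (v i : List (Finset β) → ZMod 2) :=
  map_sum (Phi r E F).subtype v s

theorem cov_rank {r : Finset β → ℕ} {E F F' : Finset β} (h : Cov r E F' F) : r F = r F' + 1 := h.2.2.2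

private theorem om_cocycle {r : Finset β → ℕ} {E U : Finset β} {π : β → ι} {χ : Finset β → ZMod 2}
    {ψ : Finset β → Finset β → List (Finset β) → ZMod 2} (hr : RankFn r) (hrel : ∀ F B, Rel r E F (ψ F B))
    {k : ℕ} (heq : ∀ F, IsFlat r E F → F ≠ E → r F < k → ∀ A, Fc π (U \ F) (r E - r F) A →
      ∀ c, (∑ a ∈ A, ψ F (A.erase a) c) = om r E χ ψ F A c)
    {F : Finset β} (hFE : F ≠ E) (hF : IsFlat r E F) (hk : r F = k) (hk0 : k ≠ 0) {A : Finset β}
    (hA : Fc π (U \ F) (r E - k + 1) A) (c : List (Finset β)) :
    ∑ a ∈ A, om r E χ ψ F (A.erase a) c = 0 := by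
  have hlt := flat_lt_E hr hF hFE
  have e1 : ∀ a ∈ A, om r E χ ψ F (A.erase a) c = ∑ F' ∈ below r E F, ψ F' (A.erase a) (F :: c) := by
    intro a _
    unfold om
    rw [if_neg (by omega)]
  rw [sum_congr rfl e1, sum_comm]
  have e2 : ∀ F' ∈ below r E F, ∑ a ∈ A, ψ F' (A.erase a) (F :: c) =
      ∑ F'' ∈ below r E F', ψ F'' A (F' :: F :: c) := by
    intro F' hF'
    have hc := mem_below.1 hF'
    have h1 := cov_rank hc
    have h2 : F' ≠ E := by
      rintro rfl
      omega
    have h3 : Fc π (U \ F') (r E - r F') A := by
      refine ⟨hA.1.trans (sdiff_subset_sdiff (subset_refl _) hc.2.2.1), ?_, hA.2.2⟩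
      rw [hA.2.1]
      omega
    rw [heq F' hc.1 h2 (by omega) A h3 (F :: c)]
    unfold om
    by_cases h4 : r F' = 0
    · rw [if_pos h4]
      have h5 : A ∩ (F \ F') = ∅ := by
        rw [eq_empty_iff_forall_notMem]
        intro z hz
        rw [mem_inter, mem_sdiff] at hz
        exact (mem_sdiff.1 (hA.1 hz.1)).2 hz.2.1
      have h6 : tr r E A F' (F :: c) = 0 := tr_cons_neg (by
        rw [h5, card_empty]
        omega)
      rw [h6, mul_zero]
      symm
      refine sum_eq_zero fun F'' hF'' => ?_
      exfalso
      have h7 := cov_rank (mem_below.1 hF'')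
      omega
    · rw [if_neg h4]
  rw [sum_congr rfl e2]
  exact sum_below_rel (fun F' => hrel F' A) c

theorem zig_ex {r : Finset β → ℕ} {E : Finset β} {π : β → ι} {χ : Finset β → ZMod 2} (hr : RankFn r)
    (hl : ∀ e ∈ E, 0 < r {e}) (hm : (E.image π).card = r E)
    (hF : ∀ F, IsFlat r E F → F ≠ E → 0 < r F → r E - r F + 1 ≤ ((E \ F).image π).card)
    (hχ : ∀ Z ⊆ E, (∀ e ∈ E.image π, (Z.filter fun z => π z = e).card = 2) →
      ∀ c, ∑ A ∈ ful π (r E) Z, χ A * tr r E A ∅ c = 0) :
    ∃ ψ, Zig r E E π χ ψ := by
  classical
  have key : ∀ k, ∃ ψ : Finset β → Finset β → List (Finset β) → ZMod 2, (∀ F B, Rel r E F (ψ F B)) ∧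
      ∀ F, IsFlat r E F → F ≠ E → r F < k → ∀ A, Fc π (E \ F) (r E - r F) A →
        ∀ c, (∑ a ∈ A, ψ F (A.erase a) c) = om r E χ ψ F A c := by
    intro k
    induction k with
    | zero => exact ⟨fun _ _ _ => 0, fun F _ => Rel.zero r E F, fun F _ _ h => absurd h (by omega)⟩
    | succ k ih =>
      obtain ⟨ψ, hrel, heq⟩ := ih
      have hstep : ∀ F, ∃ g : Finset β → List (Finset β) → ZMod 2, (∀ B, Rel r E F (g B)) ∧
          (IsFlat r E F → F ≠ E → r F = k → ∀ A, Fc π (E \ F) (r E - r F) A →
            ∀ c, (∑ a ∈ A, g (A.erase a) c) = om r E χ ψ F A c) := by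
        intro F
        by_cases hc : IsFlat r E F ∧ F ≠ E ∧ r F = k
        · obtain ⟨hFf, hFE, hFk⟩ := hc
          by_cases hk0 : k = 0
          · have hF0 : F = ∅ := rank_zero_flat hr hl hFf.1 (by omega)
            subst hF0
            obtain ⟨ψ', hψ'⟩ := ex_top (V := Phi r E ∅) two_fun π (r E) E
              (fun A => ⟨fun c => χ A * tr r E A ∅ c, (rel_tr hr E A ∅).mul _⟩) hm (by
                intro Z hZ hZ2
                refine Subtype.ext ?_
                rw [coe_sumP]
                funext c
                rw [Finset.sum_apply]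
                exact hχ Z hZ hZ2 c)
            refine ⟨fun B => (ψ' B).1, fun B => (ψ' B).2, fun _ _ _ A hA c => ?_⟩
            rw [sdiff_empty, hr.empty, Nat.sub_zero] at hA
            have h1 := congrArg Subtype.val (hψ' A hA)
            have h2 := congrFun h1 c
            unfold cb at h2
            rw [coe_sumP, Finset.sum_apply] at h2
            rw [h2]
            unfold om
            rw [if_pos hr.empty]
          · have hro : ∀ A, Rel r E F (om r E χ ψ F A) := by
              intro A
              have e : om r E χ ψ F A = fun c => ∑ F' ∈ below r E F, ψ F' A (F :: c) := by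
                funext c
                unfold om
                rw [if_neg (by omega)]
              rw [e]
              exact Rel.sum _ fun F' _ => (hrel F' A).res F
            have hlt := flat_lt_E hr hFf hFE
            obtain ⟨ψ', hψ'⟩ := ex_join (V := Phi r E F) two_fun π (r E - r F) (E \ F)
              (fun A => ⟨om r E χ ψ F A, hro A⟩) (hF F hFf hFE (by omega)) (by
                intro A hA
                refine Subtype.ext ?_
                unfold cb
                rw [coe_sumP]
                funext c
                rw [Finset.sum_apply]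
                exact om_cocycle hr hrel heq hFE hFf hFk hk0 (by
                  rw [hFk] at hA
                  exact hA) c)
            refine ⟨fun B => (ψ' B).1, fun B => (ψ' B).2, fun _ _ _ A hA c => ?_⟩
            have h1 := congrArg Subtype.val (hψ' A hA)
            have h2 := congrFun h1 c
            unfold cb at h2
            rw [coe_sumP, Finset.sum_apply] at h2
            exact h2
        · exact ⟨fun _ _ => 0, fun _ => Rel.zero r E F, fun h1 h2 h3 => absurd ⟨h1, h2, h3⟩ hc⟩
      choose g hg1 hg2 using hstep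
      refine ⟨fun F => if r F = k then g F else ψ F, ?_, ?_⟩
      · intro F B
        by_cases h : r F = k
        · simp only [if_pos h]
          exact hg1 F B
        · simp only [if_neg h]
          exact hrel F B
      · intro F hFf hFE hFk A hA c
        have e1 : om r E χ (fun F => if r F = k then g F else ψ F) F A c = om r E χ ψ F A c := by
          unfold om
          by_cases h0 : r F = 0
          · rw [if_pos h0, if_pos h0]
          · rw [if_neg h0, if_neg h0]
            refine sum_congr rfl fun F' hF' => ?_
            have h1 := cov_rank (mem_below.1 hF')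
            show (if r F' = k then g F' else ψ F') A (F :: c) = ψ F' A (F :: c)
            rw [if_neg (by omega)]
        rw [e1]
        by_cases h : r F = k
        · simp only [if_pos h]
          exact hg2 F hFf hFE h A hA c
        · simp only [if_neg h]
          exact heq F hFf hFE (by omega) A hA c
  obtain ⟨ψ, h1, h2⟩ := key (r E + 1)
  exact ⟨ψ, h1, fun F hFf hFE => h2 F hFf hFE (by
    have := hr.mono F E hFf.1
    omega)⟩

theorem zig_uni {r : Finset β → ℕ} {E U : Finset β} {π : β → ι} {χ : Finset β → ZMod 2} (hr : RankFn r)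
    (hE : 0 < r E) (hπ : Set.InjOn π U) (hU : ∀ F, IsFlat r E F → F ≠ E → (U \ F).Nonempty)
    {ψ ψ' : Finset β → Finset β → List (Finset β) → ZMod 2} (h : Zig r E U π χ ψ) (h' : Zig r E U π χ ψ') :
    sc r E ψ = sc r E ψ' := by
  classical
  -- the difference
  set D : Finset β → Finset β → List (Finset β) → ZMod 2 := fun F B c => ψ F B c + ψ' F B c with hD
  have hDrel : ∀ F B, Rel r E F (D F B) := fun F B => (h.1 F B).add (h'.1 F B)
  have hDeq : ∀ F, IsFlat r E F → F ≠ E → ∀ A ⊆ U \ F, A.card = r E - r F →
      ∀ c, (∑ a ∈ A, D F (A.erase a) c) = ∑ F' ∈ below r E F, D F' A (F :: c) := by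
    intro F hFf hFE A hA hc c
    have hfc : Fc π (U \ F) (r E - r F) A := ⟨hA, hc, hπ.mono fun z hz => (mem_sdiff.1 (hA hz)).1⟩
    rw [hD]
    simp only [sum_add_distrib]
    rw [h.2 F hFf hFE A hfc c, h'.2 F hFf hFE A hfc c]
    unfold om
    by_cases h0 : r F = 0
    · rw [if_pos h0, if_pos h0, CharTwo.add_self_eq_zero]
      have h1 : below r E F = ∅ := by
        rw [eq_empty_iff_forall_notMem]
        intro F' hF'
        have h2 := cov_rank (mem_below.1 hF')
        omega
      rw [h1, sum_empty, sum_empty, add_zero]
    · rw [if_neg h0, if_neg h0]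
  have key : ∀ k, ∃ η : Finset β → Finset β → List (Finset β) → ZMod 2, (∀ F B, Rel r E F (η F B)) ∧
      ∀ F, IsFlat r E F → F ≠ E → r F < k → ∀ A ⊆ U \ F, A.card = r E - r F - 1 →
        ∀ c, D F A c = (∑ a ∈ A, η F (A.erase a) c) + ∑ F' ∈ below r E F, η F' A (F :: c) := by
    intro k
    induction k with
    | zero => exact ⟨fun _ _ _ => 0, fun F _ => Rel.zero r E F, fun F _ _ h => absurd h (by omega)⟩
    | succ k ih =>
      obtain ⟨η, hrel, heq⟩ := ih
      have hstep : ∀ F, ∃ g : Finset β → List (Finset β) → ZMod 2, (∀ B, Rel r E F (g B)) ∧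
          (IsFlat r E F → F ≠ E → r F = k → ∀ A ⊆ U \ F, A.card = r E - r F - 1 →
            ∀ c, (∑ a ∈ A, g (A.erase a) c) = D F A c + ∑ F' ∈ below r E F, η F' A (F :: c)) := by
        intro F
        by_cases hc : IsFlat r E F ∧ F ≠ E ∧ r F = k
        · obtain ⟨hFf, hFE, hFk⟩ := hc
          have hlt := flat_lt_E hr hFf hFE
          obtain ⟨g, hg⟩ := ex_simplex (V := Phi r E F) two_fun (hU F hFf hFE) (r E - r F - 1)
            (fun A => ⟨fun c => D F A c + ∑ F' ∈ below r E F, η F' A (F :: c),
              (hDrel F A).add (Rel.sum _ fun F' _ => (hrel F' A).res F)⟩) (by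
              intro A hA hAc
              refine Subtype.ext ?_
              unfold cb
              rw [coe_sumP]
              funext c
              rw [Finset.sum_apply]
              show ∑ a ∈ A, (D F (A.erase a) c + ∑ F' ∈ below r E F, η F' (A.erase a) (F :: c)) = 0
              rw [sum_add_distrib, hDeq F hFf hFE A hA (by omega) c, sum_comm]
              have e1 : ∀ F' ∈ below r E F, ∑ a ∈ A, η F' (A.erase a) (F :: c) =
                  D F' A (F :: c) + ∑ F'' ∈ below r E F', η F'' A (F' :: F :: c) := by
                intro F' hF'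
                have hcv := mem_below.1 hF'
                have h1 := cov_rank hcv
                have h2 : F' ≠ E := by
                  rintro rfl
                  omega
                have h3 := heq F' hcv.1 h2 (by omega) A
                  (hA.trans (sdiff_subset_sdiff (subset_refl _) hcv.2.2.1)) (by omega) (F :: c)
                rw [h3, add_assoc, CharTwo.add_self_eq_zero, add_zero]
              have e3 : ∑ F' ∈ below r E F, (D F' A (F :: c) +
                  ∑ F'' ∈ below r E F', η F'' A (F' :: F :: c)) = ∑ F' ∈ below r E F, D F' A (F :: c) +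
                  ∑ F' ∈ below r E F, ∑ F'' ∈ below r E F', η F'' A (F' :: F :: c) := sum_add_distrib
              rw [sum_congr rfl e1, e3, ← add_assoc, CharTwo.add_self_eq_zero, zero_add]
              exact sum_below_rel (fun F' => hrel F' A) c)
          refine ⟨fun B => (g B).1, fun B => (g B).2, fun _ _ _ A hA hAc c => ?_⟩
          have h1 := congrArg Subtype.val (hg A hA hAc)
          have h2 := congrFun h1 c
          unfold cb at h2
          rw [coe_sumP, Finset.sum_apply] at h2
          exact h2
        · exact ⟨fun _ _ => 0, fun _ => Rel.zero r E F, fun h1 h2 h3 => absurd ⟨h1, h2, h3⟩ hc⟩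
      choose g hg1 hg2 using hstep
      refine ⟨fun F => if r F = k then g F else η F, ?_, ?_⟩
      · intro F B
        by_cases h : r F = k
        · simp only [if_pos h]
          exact hg1 F B
        · simp only [if_neg h]
          exact hrel F B
      · intro F hFf hFE hFk A hA hAc c
        have e1 : ∑ F' ∈ below r E F, (if r F' = k then g F' else η F') A (F :: c) =
            ∑ F' ∈ below r E F, η F' A (F :: c) := by
          refine sum_congr rfl fun F' hF' => ?_
          have h1 := cov_rank (mem_below.1 hF')
          rw [if_neg (by omega)]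
        rw [e1]
        by_cases h : r F = k
        · simp only [if_pos h]
          rw [hg2 F hFf hFE h A hA hAc c, add_assoc, CharTwo.add_self_eq_zero, add_zero]
        · simp only [if_neg h]
          exact heq F hFf hFE (by omega) A hA hAc c
  obtain ⟨η, hrel, heq⟩ := key (r E + 1)
  have h1 : sc r E ψ + sc r E ψ' = 0 := by
    unfold sc
    rw [← sum_add_distrib]
    have e1 : ∀ H ∈ below r E E, ψ H ∅ [E] + ψ' H ∅ [E] = ∑ F' ∈ below r E H, η F' ∅ (H :: E :: []) := by
      intro H hH
      have hcv := mem_below.1 hH
      have h2 := cov_rank hcv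
      have h3 : H ≠ E := by
        rintro rfl
        omega
      have h4 := heq H hcv.1 h3 (by omega) ∅ (empty_subset _) (by
        rw [card_empty]
        omega) [E]
      rw [sum_empty, zero_add] at h4
      exact h4
    rw [sum_congr rfl e1]
    exact sum_below_rel (fun F' => hrel F' ∅) []
  exact (eq_of_add (V := ZMod 2) CharTwo.add_self_eq_zero h1).symm

end Pool.Agent.WG59
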