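import Pool.Agent.WG59.Ev
import Pool.Agent.WG59.Mx

/-!
The zigzag for a general complex `I`, and the colour theorem for a pair of matroids.

* `Fa I U j A`: `A ⊆ U` is a face with `j` elements;
* `ZigG`: the zigzag equations for the faces inside `U`;
* `zigG_ex`: existence, from exactness outside the flats;
* `zigG_uni`: the final scalar is unique if all subsets of `U` are faces and `U` is not contained in a proper flat;
* `aG`: the general reduction;
* `thW`: `r E = f`, `x E = f + 1`, `f + 1 ≤ r F + x (E \ F)` for the proper flats `F`; if the bases of `r` inside every basis of `x`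
  have one colour then all bases of `r` that are independent for `x` have one colour.
-/

set_option autoImplicit false

namespace Pool.Agent.WG59

open Finset Pool.Agent.DT3

variable {β : Type*} [DecidableEq β]

/-- Faces of a complex. -/
def Fa (I : Finset β → Prop) (U : Finset β) (j : ℕ) (A : Finset β) : Prop :=
  A ⊆ U ∧ A.card = j ∧ I A

/-- The zigzag equations. -/
def ZigG (r : Finset β → ℕ) (E U : Finset β) (I : Finset β → Prop) (χ : Finset β → ZMod 2)
    (ψ : Finset β → Finset β → List (Finset β) → ZMod 2) : Prop :=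
  (∀ F B, Rel r E F (ψ F B)) ∧ ∀ F, IsFlat r E F → F ≠ E → ∀ A, Fa I (U \ F) (r E - r F) A →
    ∀ c, (∑ a ∈ A, ψ F (A.erase a) c) = om r E χ ψ F A c

theorem ZigG.mono {r : Finset β → ℕ} {E U U' : Finset β} {I : Finset β → Prop} {χ : Finset β → ZMod 2}
    {ψ : Finset β → Finset β → List (Finset β) → ZMod 2} (h : ZigG r E U I χ ψ) (hU : U' ⊆ U) :
    ZigG r E U' I χ ψ :=
  ⟨h.1, fun F hF hFE A hA => h.2 F hF hFE A ⟨hA.1.trans (sdiff_subset_sdiff hU (subset_refl _)), hA.2⟩⟩

private theorem omG_cocycle {r : Finset β → ℕ} {E U : Finset β} {I : Finset β → Prop}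
    {χ : Finset β → ZMod 2}
    {ψ : Finset β → Finset β → List (Finset β) → ZMod 2} (hr : RankFn r) (hrel : ∀ F B, Rel r E F (ψ F B))
    {k : ℕ} (heq : ∀ F, IsFlat r E F → F ≠ E → r F < k → ∀ A, Fa I (U \ F) (r E - r F) A →
      ∀ c, (∑ a ∈ A, ψ F (A.erase a) c) = om r E χ ψ F A c)
    {F : Finset β} (hFE : F ≠ E) (hF : IsFlat r E F) (hk : r F = k) (hk0 : k ≠ 0) {A : Finset β}
    (hA : Fa I (U \ F) (r E - k + 1) A) (c : List (Finset β)) :
    ∑ a ∈ A, om r E χ ψ F (A.erase a) c = 0 := by
  have hlt := flat_lt_E hr hF hFE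
  have e1 : ∀ a ∈ A, om r E χ ψ F (A.erase a) c = ∑ F' ∈ below r E F, ψ F' (A.erase a) (F :: c) := by
    intro a _
    unfold om
    rw [if_neg (by omega)]
  rw [sum_congr rfl e1, sum_comm]
  have e2 : ∀ F' ∈ below r E F, ∑ a ∈ A, ψ F' (A.erase a) (F :: c) =
      ∑ F'' ∈ below r E F', ψ F'' A (F' :: F :: c) := by
    intro F' hF'
    have hc := mem_below.1 hF'
    have h1 := cov_rank hc
    have h2 : F' ≠ E := by
      rintro rfl
      omega
    have h3 : Fa I (U \ F') (r E - r F') A := by
      refine ⟨hA.1.trans (sdiff_subset_sdiff (subset_refl _) hc.2.2.1), ?_, hA.2.2⟩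
      rw [hA.2.1]
      omega
    rw [heq F' hc.1 h2 (by omega) A h3 (F :: c)]
    unfold om
    by_cases h4 : r F' = 0
    · rw [if_pos h4]
      have h5 : A ∩ (F \ F') = ∅ := by
        rw [eq_empty_iff_forall_notMem]
        intro z hz
        rw [mem_inter, mem_sdiff] at hz
        exact (mem_sdiff.1 (hA.1 hz.1)).2 hz.2.1
      have h6 : tr r E A F' (F :: c) = 0 := tr_cons_neg (by
        rw [h5, card_empty]
        omega)
      rw [h6, mul_zero]
      symm
      refine sum_eq_zero fun F'' hF'' => ?_
      exfalso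
      have h7 := cov_rank (mem_below.1 hF'')
      omega
    · rw [if_neg h4]
  rw [sum_congr rfl e2]
  exact sum_below_rel (fun F' => hrel F' A) c

theorem zigG_ex {r : Finset β → ℕ} {E : Finset β} {I : Finset β → Prop} {χ : Finset β → ZMod 2}
    (hr : RankFn r) (hl : ∀ e ∈ E, 0 < r {e})
    (h0 : ∃ ψ₀ : Finset β → Phi r E ∅, ∀ A, Fa I E (r E) A →
      ∀ c, ∑ a ∈ A, (ψ₀ (A.erase a)).1 c = χ A * tr r E A ∅ c)
    (hx : ∀ F, IsFlat r E F → F ≠ E → 0 < r F → ∀ ω : Finset β → Phi r E F,
      (∀ A, Fa I (E \ F) (r E - r F + 1) A → cb ω A = 0) →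
      ∃ ψ : Finset β → Phi r E F, ∀ A, Fa I (E \ F) (r E - r F) A → cb ψ A = ω A) :
    ∃ ψ, ZigG r E E I χ ψ := by
  classical
  have key : ∀ k, ∃ ψ : Finset β → Finset β → List (Finset β) → ZMod 2, (∀ F B, Rel r E F (ψ F B)) ∧
      ∀ F, IsFlat r E F → F ≠ E → r F < k → ∀ A, Fa I (E \ F) (r E - r F) A →
        ∀ c, (∑ a ∈ A, ψ F (A.erase a) c) = om r E χ ψ F A c := by
    intro k
    induction k with
    | zero => exact ⟨fun _ _ _ => 0, fun F _ => Rel.zero r E F, fun F _ _ h => absurd h (by omega)⟩
    | succ k ih =>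
      obtain ⟨ψ, hrel, heq⟩ := ih
      have hstep : ∀ F, ∃ g : Finset β → List (Finset β) → ZMod 2, (∀ B, Rel r E F (g B)) ∧
          (IsFlat r E F → F ≠ E → r F = k → ∀ A, Fa I (E \ F) (r E - r F) A →
            ∀ c, (∑ a ∈ A, g (A.erase a) c) = om r E χ ψ F A c) := by
        intro F
        by_cases hc : IsFlat r E F ∧ F ≠ E ∧ r F = k
        · obtain ⟨hFf, hFE, hFk⟩ := hc
          by_cases hk0 : k = 0
          · have hF0 : F = ∅ := rank_zero_flat hr hl hFf.1 (by omega)
            subst hF0
            obtain ⟨ψ', hψ'⟩ := h0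
            refine ⟨fun B => (ψ' B).1, fun B => (ψ' B).2, fun _ _ _ A hA c => ?_⟩
            rw [sdiff_empty, hr.empty, Nat.sub_zero] at hA
            rw [hψ' A hA c]
            unfold om
            rw [if_pos hr.empty]
          · have hro : ∀ A, Rel r E F (om r E χ ψ F A) := by
              intro A
              have e : om r E χ ψ F A = fun c => ∑ F' ∈ below r E F, ψ F' A (F :: c) := by
                funext c
                unfold om
                rw [if_neg (by omega)]
              rw [e]
              exact Rel.sum _ fun F' _ => (hrel F' A).res F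
            obtain ⟨ψ', hψ'⟩ := hx F hFf hFE (by omega)
              (fun A => ⟨om r E χ ψ F A, hro A⟩) (by
                intro A hA
                refine Subtype.ext ?_
                unfold cb
                rw [coe_sumP]
                funext c
                rw [Finset.sum_apply]
                exact omG_cocycle hr hrel heq hFE hFf hFk hk0 (by
                  rw [hFk] at hA
                  exact hA) c)
            refine ⟨fun B => (ψ' B).1, fun B => (ψ' B).2, fun _ _ _ A hA c => ?_⟩
            have h1 := congrArg Subtype.val (hψ' A hA)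
            have h2 := congrFun h1 c
            unfold cb at h2
            rw [coe_sumP, Finset.sum_apply] at h2
            exact h2
        · exact ⟨fun _ _ => 0, fun _ => Rel.zero r E F, fun h1 h2 h3 => absurd ⟨h1, h2, h3⟩ hc⟩
      choose g hg1 hg2 using hstep
      refine ⟨fun F => if r F = k then g F else ψ F, ?_, ?_⟩
      · intro F B
        by_cases h : r F = k
        · simp only [if_pos h]
          exact hg1 F B
        · simp only [if_neg h]
          exact hrel F B
      · intro F hFf hFE hFk A hA c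
        have e1 : om r E χ (fun F => if r F = k then g F else ψ F) F A c = om r E χ ψ F A c := by
          unfold om
          by_cases h0 : r F = 0
          · rw [if_pos h0, if_pos h0]
          · rw [if_neg h0, if_neg h0]
            refine sum_congr rfl fun F' hF' => ?_
            have h1 := cov_rank (mem_below.1 hF')
            show (if r F' = k then g F' else ψ F') A (F :: c) = ψ F' A (F :: c)
            rw [if_neg (by omega)]
        rw [e1]
        by_cases h : r F = k
        · simp only [if_pos h]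
          exact hg2 F hFf hFE h A hA c
        · simp only [if_neg h]
          exact heq F hFf hFE (by omega) A hA c
  obtain ⟨ψ, h1, h2⟩ := key (r E + 1)
  exact ⟨ψ, h1, fun F hFf hFE => h2 F hFf hFE (by
    have := hr.mono F E hFf.1
    omega)⟩

theorem zigG_uni {r : Finset β → ℕ} {E U : Finset β} {I : Finset β → Prop} {χ : Finset β → ZMod 2}
    (hr : RankFn r) (hE : 0 < r E) (hI : ∀ A ⊆ U, I A)
    (hU : ∀ F, IsFlat r E F → F ≠ E → (U \ F).Nonempty)
    {ψ ψ' : Finset β → Finset β → List (Finset β) → ZMod 2} (h : ZigG r E U I χ ψ)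
    (h' : ZigG r E U I χ ψ') : sc r E ψ = sc r E ψ' := by
  refine zig_uni (π := id) (χ := χ) hr hE (Function.injective_id.injOn) hU ?_ ?_
  · exact ⟨h.1, fun F hF hFE A hA => h.2 F hF hFE A ⟨hA.1, hA.2.1, hI A (hA.1.trans sdiff_subset)⟩⟩
  · exact ⟨h'.1, fun F hF hFE A hA => h'.2 F hF hFE A ⟨hA.1, hA.2.1, hI A (hA.1.trans sdiff_subset)⟩⟩

/-- The general reduction. -/
theorem aG {r : Finset β → ℕ} {E : Finset β} {I : Finset β → Prop} {χ : Finset β → ZMod 2}
    (hr : RankFn r) (hl : ∀ e ∈ E, 0 < r {e}) (hdown : ∀ A B, B ⊆ A → I A → I B)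
    (h0 : ∃ ψ₀ : Finset β → Phi r E ∅, ∀ A, Fa I E (r E) A →
      ∀ c, ∑ a ∈ A, (ψ₀ (A.erase a)).1 c = χ A * tr r E A ∅ c)
    (hx : ∀ F, IsFlat r E F → F ≠ E → 0 < r F → ∀ ω : Finset β → Phi r E F,
      (∀ A, Fa I (E \ F) (r E - r F + 1) A → cb ω A = 0) →
      ∃ ψ : Finset β → Phi r E F, ∀ A, Fa I (E \ F) (r E - r F) A → cb ψ A = ω A)
    {b b' : Finset β} (hb : Fa I E (r E) b) (hbr : r b = r E) (hb' : Fa I E (r E) b')
    (hbr' : r b' = r E) : χ b = χ b' := by
  rcases Nat.eq_zero_or_pos (r E) with h00 | h00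
  · have h1 : b = ∅ := card_eq_zero.1 (hb.2.1.trans h00)
    have h2 : b' = ∅ := card_eq_zero.1 (hb'.2.1.trans h00)
    rw [h1, h2]
  · obtain ⟨ψ, hψ⟩ := zigG_ex hr hl h0 hx
    have key : ∀ b, Fa I E (r E) b → r b = r E → sc r E ψ = χ b := by
      intro b hb hbr
      obtain ⟨ψ', h1, h2⟩ := zig_ev (π := (id : β → β)) χ hr hl h00 hb.1 hb.2.1 hbr
      rw [← h2]
      refine zigG_uni hr h00 (fun A hA => hdown b A hA hb.2.2) (fun F hF hFE => ?_) (hψ.mono hb.1)
        ⟨h1.1, fun F hF hFE A hA => h1.2 F hF hFE A ⟨hA.1, hA.2.1, Function.injective_id.injOn⟩⟩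
      rw [sdiff_nonempty]
      intro hs
      have h3 := hr.mono b F hs
      have h4 := flat_lt_E hr hF hFE
      omega
    rw [← key b hb hbr, key b' hb' hbr']

/-- A complete flag meets a transversal set in every step, so the set is independent. -/
theorem tr_rank {r : Finset β → ℕ} (hr : RankFn r) {E A : Finset β} (hA : A ⊆ E) :
    ∀ (c : List (Finset β)) (F : Finset β), tr r E A F c ≠ 0 →
      (A \ F).card + r F = r E ∧ r E ≤ r (A ∪ F) := by
  intro c
  induction c with
  | nil =>
    intro F h
    rw [tr] at h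
    by_cases hF : F = E
    · subst hF
      rw [sdiff_eq_empty_iff_subset.2 hA, card_empty, zero_add]
      exact ⟨rfl, hr.mono _ _ subset_union_right⟩
    · rw [if_neg hF] at h
      exact absurd rfl h
  | cons X c ih =>
    intro F h
    rw [tr] at h
    by_cases hc : Cov r E F X ∧ (A ∩ (X \ F)).card = 1
    · rw [if_pos hc] at h
      obtain ⟨h1, h2⟩ := ih X h
      have h3 := cov_rank hc.1
      have h4 : (A \ F).card = (A \ X).card + 1 := by
        have e1 : A \ F = (A \ X) ∪ (A ∩ (X \ F)) := by
          ext z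
          simp only [mem_sdiff, mem_union, mem_inter]
          have := @hc.1.2.2.1 z
          tauto
        have e2 : Disjoint (A \ X) (A ∩ (X \ F)) := by
          rw [Finset.disjoint_left]
          intro z hz hz'
          exact (mem_sdiff.1 hz).2 (mem_sdiff.1 (mem_inter.1 hz').2).1
        rw [e1, card_union_of_disjoint e2, hc.2]
      refine ⟨by omega, ?_⟩
      obtain ⟨z, hz⟩ := card_eq_one.1 hc.2
      have hz' : z ∈ A ∩ (X \ F) := by
        rw [hz]
        exact mem_singleton_self z
      rw [mem_inter, mem_sdiff] at hz'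
      obtain ⟨k1, k2⟩ := flat_cover hr hc.1.1 (mem_sdiff.2 ⟨hA hz'.1, hz'.2.2⟩)
      have h5 := (k2 X hc.1.2.1 hc.1.2.2.1 hz'.2.1).2 hc.1.2.2.2
      have h6 : r (A ∪ X) ≤ r (A ∪ F) := by
        have hzF : insert z F ⊆ A ∪ F := insert_subset (mem_union_left _ hz'.1) subset_union_right
        have h7 : insert z F ⊆ E := hzF.trans (union_subset hA hc.1.1.1)
        have h8 : X ⊆ clo r E (A ∪ F) := by
          rw [h5]
          refine clo_sub_flat hr (clo_flat hr (union_subset hA hc.1.1.1)) ?_
          exact hzF.trans (subset_clo (union_subset hA hc.1.1.1))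
        have h9 : A ∪ X ⊆ clo r E (A ∪ F) :=
          union_subset (subset_union_left.trans (subset_clo (union_subset hA hc.1.1.1))) h8
        have h10 := hr.mono _ _ h9
        rw [rank_clo hr (union_subset hA hc.1.1.1)] at h10
        exact h10
      omega
    · rw [if_neg hc] at h
      exact absurd rfl h

end Pool.Agent.WG59
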